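import Mathlib

set_option autoImplicit false
open MeasureTheory Topology Set

namespace Pool.Agent.H44.Quasi

/-- Euclidean three-space. -/
abbrev E3 := EuclideanSpace ℝ (Fin 3)

/-- `K` is a solid nondegenerate convex polyhedron in Euclidean space: the convex hull of finitely
many points, with nonempty interior.  The polyhedral surface `P` of the problem is `frontier K`. -/
def IsNondegenerateConvexPolyhedron (K : Set E3) : Prop :=
  (∃ s : Set E3, s.Finite ∧ K = convexHull ℝ s) ∧ (interior K).Nonempty

/-- The vertices of the polyhedron `K`: its extreme points. -/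
def vertices (K : Set E3) : Set E3 := K.extremePoints ℝ

/-- The tangent cone of the convex set `K` at `p`. -/
def tangentCone (K : Set E3) (p : E3) : Set E3 :=
  closure {w | ∃ x ∈ K, ∃ r : ℝ, 0 ≤ r ∧ w = r • (x - p)}

/-- The space of directions (link) of the surface `frontier K` at its point `p`: the unit vectors
in the boundary of the tangent cone.  It is a closed curve, whose length (one-dimensional
Hausdorff measure) is the total surface angle at `p`. -/
def link (K : Set E3) (p : E3) : Set E3 := frontier (tangentCone K p) ∩ Metric.sphere 0 1

/-- A curve on the surface `frontier K` passes through `p`, leaving `p` along the vector `u` and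
(when followed backwards) along the vector `v`.  The two directions `u/|u|`, `v/|v|` cut the link
into its two sides; `SideAnglesLE K p u v` says that each side has surface angle (length) at most
`π`. -/
def SideAnglesLE (K : Set E3) (p u v : E3) : Prop :=
  ∀ w ∈ link K p \ {‖u‖⁻¹ • u, ‖v‖⁻¹ • v},
    μH[1] (connectedComponentIn (link K p \ {‖u‖⁻¹ • u, ‖v‖⁻¹ • v}) w) ≤ ENNReal.ofReal Real.pi

/-- The subset `Γ` of the surface `frontier K` is a simple closed quasigeodesic: it is traced by a
periodic curve `γ` (of period `L`) on the surface, injective on each period, which at every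
parameter `t` starts and ends with straight segments with nonzero velocities `u` (forwards)
and `v` (backwards) and has surface angle at most `π` on each of its two sides there. -/
def IsSimpleClosedQuasigeodesic (K Γ : Set E3) : Prop :=
  ∃ (γ : ℝ → E3) (L : ℝ), 0 < L ∧ Set.range γ = Γ ∧ (∀ t, γ t ∈ frontier K) ∧
    (∀ s t, γ s = γ t ↔ ∃ n : ℤ, t = s + n * L) ∧
    ∀ t, ∃ u v : E3, u ≠ 0 ∧ v ≠ 0 ∧
      (∃ ε : ℝ, 0 < ε ∧ ∀ s ∈ Set.Icc 0 ε, γ (t + s) = γ t + s • u ∧ γ (t - s) = γ t + s • v) ∧
      SideAnglesLE K (γ t) u v

/-- The simple closed quasigeodesics on the polyhedral surface `frontier K` which pass through at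
least one vertex, counted as subsets of the surface. -/
def vertexQuasigeodesics (K : Set E3) : Set (Set E3) :=
  {Γ | IsSimpleClosedQuasigeodesic K Γ ∧ (Γ ∩ vertices K).Nonempty}

end Pool.Agent.H44.Quasi
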