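import Mathlib

set_option autoImplicit false
open MeasureTheory Topology Set

namespace Pool.Agent.H44.Quasi

/-! ### The triangle wave -/

/-- The even triangle wave of period `2` with `D 0 = -1`, `D 1 = 1`. -/
noncomputable def D (x : ℝ) : ℝ := 2 * |x - 2 * round (x / 2)| - 1

lemma D_min (x : ℝ) (m : ℤ) : D x ≤ 2 * |x - 2 * m| - 1 := by
  unfold D
  have h := round_le (x / 2) m
  have h1 : |x / 2 - round (x / 2)| = |x - 2 * round (x / 2)| / 2 := by
    rw [show x / 2 - round (x / 2) = (x - 2 * round (x / 2)) / 2 by ring, abs_div]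
    norm_num
  have h2 : |x / 2 - m| = |x - 2 * m| / 2 := by
    rw [show x / 2 - (m : ℝ) = (x - 2 * m) / 2 by ring, abs_div]
    norm_num
  rw [h1, h2] at h
  linarith

lemma D_le (x : ℝ) : D x ≤ 1 := by
  unfold D
  have h := abs_sub_round (x / 2)
  have h1 : |x / 2 - round (x / 2)| = |x - 2 * round (x / 2)| / 2 := by
    rw [show x / 2 - round (x / 2) = (x - 2 * round (x / 2)) / 2 by ring, abs_div]
    norm_num
  rw [h1] at h
  linarith

lemma le_D (x : ℝ) : -1 ≤ D x := by
  unfold D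
  have := abs_nonneg (x - 2 * round (x / 2))
  linarith

/-- evaluation of the wave -/
lemma D_eval {x s : ℝ} {m : ℤ} (hx : x = 2 * m + s) (hs : |s| ≤ 1) : D x = 2 * |s| - 1 := by
  apply le_antisymm
  · have := D_min x m
    rw [hx] at this ⊢
    rwa [show (2 * (m : ℝ) + s) - 2 * m = s by ring] at this
  · unfold D
    set r := round (x / 2)
    have h1 : x - 2 * r = s + 2 * ((m - r : ℤ) : ℝ) := by rw [hx]; push_cast; ring
    rw [h1]
    have h2 : |s| ≤ |s + 2 * ((m - r : ℤ) : ℝ)| := by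
      rcases lt_trichotomy (m - r) 0 with h | h | h
      · have h3 : ((m - r : ℤ) : ℝ) ≤ -1 := by
          have : m - r ≤ -1 := by omega
          exact_mod_cast this
        have h4 := abs_le.mp hs
        rw [abs_of_nonpos (a := s + 2 * ((m - r : ℤ) : ℝ)) (by linarith)]
        rcases abs_cases s with h5 | h5 <;> linarith
      · rw [h]; simp
      · have h3 : (1 : ℝ) ≤ ((m - r : ℤ) : ℝ) := by
          have : 1 ≤ m - r := by omega
          exact_mod_cast this
        have h4 := abs_le.mp hs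
        rw [abs_of_nonneg (a := s + 2 * ((m - r : ℤ) : ℝ)) (by linarith)]
        rcases abs_cases s with h5 | h5 <;> linarith
    linarith

/-- representation of a real number through the wave -/
lemma D_rep (x : ℝ) : ∃ (m : ℤ) (σ : ℝ), (σ = 1 ∨ σ = -1) ∧ x = 2 * m + σ * ((D x + 1) / 2) := by
  have h1 : |x - 2 * round (x / 2)| = (D x + 1) / 2 := by unfold D; ring
  rcases abs_choice (x - 2 * round (x / 2)) with h | h
  · exact ⟨round (x / 2), 1, Or.inl rfl, by linarith⟩
  · exact ⟨round (x / 2), -1, Or.inr rfl, by linarith⟩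

lemma D_add_two (x : ℝ) (n : ℤ) : D (x + 2 * n) = D x := by
  obtain ⟨m, σ, hσ, hx⟩ := D_rep x
  have h1 := le_D x
  have h2 := D_le x
  have habs : |σ * ((D x + 1) / 2)| = (D x + 1) / 2 := by
    rcases hσ with rfl | rfl
    · rw [one_mul, abs_of_nonneg (by linarith)]
    · rw [neg_one_mul, abs_neg, abs_of_nonneg (by linarith)]
  have h3 : x + 2 * n = 2 * ((m + n : ℤ) : ℝ) + σ * ((D x + 1) / 2) := by
    push_cast; linarith
  rw [D_eval h3 (by rw [habs]; linarith), habs]
  ring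

lemma D_neg (x : ℝ) : D (-x) = D x := by
  obtain ⟨m, σ, hσ, hx⟩ := D_rep x
  have h1 := le_D x
  have h2 := D_le x
  have habs : |σ * ((D x + 1) / 2)| = (D x + 1) / 2 := by
    rcases hσ with rfl | rfl
    · rw [one_mul, abs_of_nonneg (by linarith)]
    · rw [neg_one_mul, abs_neg, abs_of_nonneg (by linarith)]
  have h3 : -x = 2 * ((-m : ℤ) : ℝ) + (-(σ * ((D x + 1) / 2))) := by
    push_cast; linarith
  rw [D_eval h3 (by rw [abs_neg, habs]; linarith), abs_neg, habs]
  ring

lemma D_eq_iff {x y : ℝ} (h : D x = D y) : (∃ n : ℤ, x = y + 2 * n) ∨ (∃ n : ℤ, x = -y + 2 * n) := by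
  obtain ⟨m, σ, hσ, hx⟩ := D_rep x
  obtain ⟨m', σ', hσ', hy⟩ := D_rep y
  rw [h] at hx
  rcases hσ with rfl | rfl <;> rcases hσ' with rfl | rfl
  · left; exact ⟨m - m', by push_cast; linarith⟩
  · right; exact ⟨m + m', by push_cast; linarith⟩
  · right; exact ⟨m + m', by push_cast; linarith⟩
  · left; exact ⟨m - m', by push_cast; linarith⟩

/-- At a non-integer the wave is locally affine with slope `± 2`. -/
lemma D_smooth {x : ℝ} (hx : ∀ n : ℤ, x ≠ n) : |D x| < 1 ∧ ∃ σ : ℝ, (σ = 1 ∨ σ = -1) ∧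
    ∃ η : ℝ, 0 < η ∧ ∀ s : ℝ, |s| ≤ η → D (x + s) = D x + 2 * σ * s := by
  obtain ⟨m, σ, hσ, hxe⟩ := D_rep x
  have h1 := le_D x
  have h2 := D_le x
  have h3 : D x ≠ -1 := by
    intro h
    apply hx (2 * m)
    rw [h] at hxe
    push_cast; linarith
  have h4 : D x ≠ 1 := by
    intro h
    rw [h] at hxe
    rcases hσ with rfl | rfl
    · apply hx (2 * m + 1); push_cast; linarith
    · apply hx (2 * m - 1); push_cast; linarith
  have h5 : -1 < D x := lt_of_le_of_ne h1 (Ne.symm h3)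
  have h6 : D x < 1 := lt_of_le_of_ne h2 h4
  refine ⟨abs_lt.mpr ⟨h5, h6⟩, σ, hσ, min ((D x + 1) / 2) (1 - (D x + 1) / 2),
    lt_min (by linarith) (by linarith), ?_⟩
  intro s hs
  have hs1 := hs.trans (min_le_left _ _)
  have hs2 := hs.trans (min_le_right _ _)
  have hs1' := abs_le.mp hs1
  have hs2' := abs_le.mp hs2
  have h7 : x + s = 2 * (m : ℝ) + (σ * ((D x + 1) / 2) + s) := by linarith
  have h8 : |σ * ((D x + 1) / 2) + s| = (D x + 1) / 2 + σ * s := by
    rcases hσ with rfl | rfl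
    · rw [abs_of_nonneg (by linarith)]; ring
    · rw [abs_of_nonpos (by linarith)]; ring
  rw [D_eval h7 (by rw [h8]; rcases hσ with rfl | rfl <;> linarith), h8]
  ring

/-- At an integer the wave has value `± 1` and a kink. -/
lemma D_kink (n : ℤ) : (D n = 1 ∨ D n = -1) ∧ ∀ s : ℝ, |s| ≤ 1 →
    D (n + s) = D n - 2 * D n * |s| := by
  rcases Int.even_or_odd' n with ⟨m, rfl | rfl⟩
  · have h0 : D ((2 * m : ℤ) : ℝ) = -1 := by
      rw [D_eval (m := m) (s := 0) (by push_cast; ring) (by simp)]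
      simp
    refine ⟨Or.inr h0, ?_⟩
    intro s hs
    rw [h0, D_eval (m := m) (s := s) (by push_cast; ring) hs]
    ring
  · have h0 : D ((2 * m + 1 : ℤ) : ℝ) = 1 := by
      rw [D_eval (m := m) (s := 1) (by push_cast; ring) (by simp)]
      norm_num
    refine ⟨Or.inl h0, ?_⟩
    intro s hs
    rw [h0]
    have hs' := abs_le.mp hs
    rcases le_total 0 s with h | h
    · rw [D_eval (m := m + 1) (s := s - 1) (by push_cast; ring)
        (by rw [abs_le]; constructor <;> linarith), abs_of_nonpos (by linarith), abs_of_nonneg h]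
      ring
    · rw [D_eval (m := m) (s := 1 + s) (by push_cast; ring)
        (by rw [abs_le]; constructor <;> linarith), abs_of_nonneg (by linarith), abs_of_nonpos h]
      ring

lemma D_tri {x y z : ℝ} (h : x + y + z = 0) : D x - D y - D z ≤ 1 := by
  obtain ⟨m, σ, hσ, hy⟩ := D_rep y
  obtain ⟨m', σ', hσ', hz⟩ := D_rep z
  have h1 := le_D y
  have h2 := le_D z
  have h3 := D_min x (-(m + m'))
  have h4 : |x - 2 * ((-(m + m') : ℤ) : ℝ)| ≤ (D y + 1) / 2 + (D z + 1) / 2 := by
    have : x - 2 * ((-(m + m') : ℤ) : ℝ) = -(σ * ((D y + 1) / 2) + σ' * ((D z + 1) / 2)) := by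
      push_cast; linarith
    rw [this, abs_neg, abs_le]
    rcases hσ with rfl | rfl <;> rcases hσ' with rfl | rfl <;> constructor <;> linarith
  linarith

lemma D_sum {x y z : ℝ} (h : x + y + z = 0) : D x + D y + D z ≤ 1 := by
  obtain ⟨m, σ, hσ, hy⟩ := D_rep y
  obtain ⟨m', σ', hσ', hz⟩ := D_rep z
  have h1 := le_D y
  have h2 := le_D z
  have h1' := D_le y
  have h2' := D_le z
  rcases hσ with rfl | rfl <;> rcases hσ' with rfl | rfl
  · have h3 := D_min x (-(m + m' + 1))
    have h4 : |x - 2 * ((-(m + m' + 1) : ℤ) : ℝ)| ≤ 2 - ((D y + 1) / 2 + (D z + 1) / 2) := by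
      have : x - 2 * ((-(m + m' + 1) : ℤ) : ℝ) = 2 - ((D y + 1) / 2 + (D z + 1) / 2) := by
        push_cast; linarith
      rw [this, abs_of_nonneg (by linarith)]
    linarith
  · have h3 := D_min x (-(m + m'))
    have h4 : |x - 2 * ((-(m + m') : ℤ) : ℝ)| ≤ 2 - ((D y + 1) / 2 + (D z + 1) / 2) := by
      have : x - 2 * ((-(m + m') : ℤ) : ℝ) = -((D y + 1) / 2 - (D z + 1) / 2) := by
        push_cast; linarith
      rw [this, abs_neg, abs_le]
      constructor <;> linarith
    linarith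
  · have h3 := D_min x (-(m + m'))
    have h4 : |x - 2 * ((-(m + m') : ℤ) : ℝ)| ≤ 2 - ((D y + 1) / 2 + (D z + 1) / 2) := by
      have : x - 2 * ((-(m + m') : ℤ) : ℝ) = ((D y + 1) / 2 - (D z + 1) / 2) := by
        push_cast; linarith
      rw [this, abs_le]
      constructor <;> linarith
    linarith
  · have h3 := D_min x (-(m + m' - 1))
    have h4 : |x - 2 * ((-(m + m' - 1) : ℤ) : ℝ)| ≤ 2 - ((D y + 1) / 2 + (D z + 1) / 2) := by
      have : x - 2 * ((-(m + m' - 1) : ℤ) : ℝ) = -(2 - ((D y + 1) / 2 + (D z + 1) / 2)) := by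
        push_cast; linarith
      rw [this, abs_neg, abs_of_nonneg (by linarith)]
    linarith

/-- sign vectors with product one -/
def IsSign (a b c : ℝ) : Prop := (a = 1 ∨ a = -1) ∧ (b = 1 ∨ b = -1) ∧ c = a * b

lemma wave_le {x y z : ℝ} (h : x + y + z = 0) {a b c : ℝ} (hs : IsSign a b c) :
    a * D x + b * D y + c * D z ≤ 1 := by
  have h0 := D_sum h
  have h1 := D_tri h
  have h2 := D_tri (x := y) (y := x) (z := z) (by linarith)
  have h3 := D_tri (x := z) (y := x) (z := y) (by linarith)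
  obtain ⟨ha | ha, hb | hb, hc⟩ := hs <;> subst ha <;> subst hb <;> subst hc <;> linarith

lemma wave_eq {x y z : ℝ} (h : x + y + z = 0) :
    ∃ a b c, IsSign a b c ∧ a * D x + b * D y + c * D z = 1 := by
  obtain ⟨m₁, σ₁, hσ₁, hx⟩ := D_rep x
  obtain ⟨m₂, σ₂, hσ₂, hy⟩ := D_rep y
  obtain ⟨m₃, σ₃, hσ₃, hz⟩ := D_rep z
  have a1 := le_D x
  have a2 := le_D y
  have a3 := le_D z
  have b1 := D_le x
  have b2 := D_le y
  have b3 := D_le z
  have hsum : σ₁ * ((D x + 1) / 2) + σ₂ * ((D y + 1) / 2) + σ₃ * ((D z + 1) / 2)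
      = -(2 * ((m₁ + m₂ + m₃ : ℤ) : ℝ)) := by push_cast; linarith
  set M := m₁ + m₂ + m₃ with hM
  have s0 : IsSign 1 1 1 := by simp [IsSign]
  have s1 : IsSign 1 (-1) (-1) := by simp [IsSign]
  have s2 : IsSign (-1) 1 (-1) := by simp [IsSign]
  have s3 : IsSign (-1) (-1) 1 := by simp [IsSign]
  have hMr : (M : ℝ) < 2 ∧ (-2 : ℝ) < M := by
    rcases hσ₁ with rfl | rfl <;> rcases hσ₂ with rfl | rfl <;> rcases hσ₃ with rfl | rfl <;>
      constructor <;> linarith
  have hM1 : M < 2 := by exact_mod_cast hMr.1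
  have hM2 : -2 < M := by exact_mod_cast hMr.2
  have hM3 : M = -1 ∨ M = 0 ∨ M = 1 := by omega
  have key : ∀ a b c : ℝ, IsSign a b c → 1 ≤ a * D x + b * D y + c * D z →
      ∃ a b c, IsSign a b c ∧ a * D x + b * D y + c * D z = 1 := by
    intro a b c hs h1
    exact ⟨a, b, c, hs, le_antisymm (wave_le h hs) h1⟩
  rcases hM3 with h4 | h4 | h4 <;> rw [h4] at hsum <;> push_cast at hsum <;>
    rcases hσ₁ with rfl | rfl <;> rcases hσ₂ with rfl | rfl <;> rcases hσ₃ with rfl | rfl <;>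
    first
    | exact key _ _ _ s0 (by linarith)
    | exact key _ _ _ s1 (by linarith)
    | exact key _ _ _ s2 (by linarith)
    | exact key _ _ _ s3 (by linarith)

end Pool.Agent.H44.Quasi
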