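import Mathlib
import Pool.Agent.H44.QuasiDefs
import Pool.Agent.H44.QuasiWave

set_option autoImplicit false
open MeasureTheory Topology Set

namespace Pool.Agent.H44.Quasi

/-! ### Arcs of great circles -/

/-- unit speed parametrisation of a great circle -/
noncomputable def arc (e f : E3) (φ : ℝ) : E3 := Real.cos φ • e + Real.sin φ • f

lemma arc_lip {e f : E3} (he : ‖e‖ = 1) (hf : ‖f‖ = 1) (hef : inner ℝ e f = 0) :
    LipschitzWith 1 (arc e f) := by
  apply LipschitzWith.of_dist_le_mul
  intro x y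
  rw [NNReal.coe_one, one_mul, dist_eq_norm, Real.dist_eq]
  have h1 : arc e f x - arc e f y
      = (Real.cos x - Real.cos y) • e + (Real.sin x - Real.sin y) • f := by
    unfold arc; module
  have h2 : ‖arc e f x - arc e f y‖ ^ 2
      = (Real.cos x - Real.cos y) ^ 2 + (Real.sin x - Real.sin y) ^ 2 := by
    rw [h1, norm_add_sq_real, norm_smul, norm_smul, he, hf, inner_smul_left, inner_smul_right, hef]
    simp
  have h3 : (Real.cos x - Real.cos y) ^ 2 + (Real.sin x - Real.sin y) ^ 2
      = 2 - 2 * Real.cos (x - y) := by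
    rw [Real.cos_sub]
    nlinarith [Real.sin_sq_add_cos_sq x, Real.sin_sq_add_cos_sq y]
  have h4 := Real.one_sub_sq_div_two_le_cos (x := x - y)
  have h5 : ‖arc e f x - arc e f y‖ ^ 2 ≤ |x - y| ^ 2 := by
    rw [h2, h3, sq_abs]; linarith
  exact (sq_le_sq₀ (norm_nonneg _) (abs_nonneg _)).mp h5

lemma arc_measure {e f : E3} (he : ‖e‖ = 1) (hf : ‖f‖ = 1) (hef : inner ℝ e f = 0) (a b : ℝ) :
    μH[1] (arc e f '' Icc a b) ≤ ENNReal.ofReal (b - a) := by
  have h := (arc_lip he hf hef).hausdorffMeasure_image_le (d := 1) (by norm_num) (Icc a b)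
  rw [hausdorffMeasure_real, Real.volume_Icc] at h
  simpa using h

/-- The key lemma on links at non-vertices: if the link `M` is contained in the union of two half
great circles with common end points `± e`, and the two directions are
`u = a e + b f₁`, `v = -a e + b f₂`, then each component of `M \ {u, v}` has length at most `π`. -/
lemma two_half {M : Set E3} {e f1 f2 u v : E3} {a b : ℝ} (ψ : E3 → ℝ) (hψ : Continuous ψ)
    (he : ‖e‖ = 1) (hf1 : ‖f1‖ = 1) (hf2 : ‖f2‖ = 1) (h1 : inner ℝ e f1 = 0)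
    (h2 : inner ℝ e f2 = 0)
    (hab : a ^ 2 + b ^ 2 = 1) (hb : 0 ≤ b)
    (hu : u = a • e + b • f1) (hv : v = (-a) • e + b • f2)
    (hψ1 : ∀ x y : ℝ, ψ (x • e + y • f1) = y) (hψ2 : ∀ x y : ℝ, ψ (x • e + y • f2) = -y)
    (hM : ∀ w ∈ M, (∃ x y : ℝ, 0 ≤ y ∧ x ^ 2 + y ^ 2 = 1 ∧ w = x • e + y • f1) ∨
      (∃ x y : ℝ, 0 ≤ y ∧ x ^ 2 + y ^ 2 = 1 ∧ w = x • e + y • f2)) :
    ∀ w ∈ M \ {u, v}, μH[1] (connectedComponentIn (M \ {u, v}) w) ≤ ENNReal.ofReal Real.pi := by
  -- angle of `u`
  set θ := Real.arccos a with hθ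
  have ha1 : -1 ≤ a := by nlinarith
  have ha2 : a ≤ 1 := by nlinarith
  have hcos : Real.cos θ = a := Real.cos_arccos ha1 ha2
  have hθ0 : 0 ≤ θ := Real.arccos_nonneg a
  have hθπ : θ ≤ Real.pi := Real.arccos_le_pi a
  have hsin : Real.sin θ = b := by
    have h3 : Real.sin θ ^ 2 = b ^ 2 := by
      have := Real.sin_sq_add_cos_sq θ
      rw [hcos] at this; linarith
    have h4 := Real.sin_nonneg_of_nonneg_of_le_pi hθ0 hθπ
    exact (sq_eq_sq₀ h4 hb).mp h3
  -- parametrise M by angles
  have hM' : ∀ w ∈ M, (∃ φ : ℝ, 0 ≤ φ ∧ φ ≤ Real.pi ∧ w = arc e f1 φ) ∨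
      (∃ φ : ℝ, 0 ≤ φ ∧ φ ≤ Real.pi ∧ w = arc e f2 φ) := by
    have key : ∀ (f : E3) (w : E3), (∃ x y : ℝ, 0 ≤ y ∧ x ^ 2 + y ^ 2 = 1 ∧ w = x • e + y • f) →
        ∃ φ : ℝ, 0 ≤ φ ∧ φ ≤ Real.pi ∧ w = arc e f φ := by
      rintro f w ⟨x, y, hy, hxy, rfl⟩
      have hx1 : -1 ≤ x := by nlinarith
      have hx2 : x ≤ 1 := by nlinarith
      refine ⟨Real.arccos x, Real.arccos_nonneg x, Real.arccos_le_pi x, ?_⟩
      have hc : Real.cos (Real.arccos x) = x := Real.cos_arccos hx1 hx2
      have hs : Real.sin (Real.arccos x) = y := by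
        have h3 : Real.sin (Real.arccos x) ^ 2 = y ^ 2 := by
          have := Real.sin_sq_add_cos_sq (Real.arccos x)
          rw [hc] at this; linarith
        have h4 := Real.sin_nonneg_of_nonneg_of_le_pi (Real.arccos_nonneg x)
          (Real.arccos_le_pi x)
        exact (sq_eq_sq₀ h4 hy).mp h3
      unfold arc
      rw [hc, hs]
    intro w hw
    rcases hM w hw with h | h
    · left; exact key _ _ h
    · right; exact key _ _ h
  -- the separating function
  set lam : E3 → ℝ := fun w => b * inner ℝ e w - a * ψ w with hlam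
  have hlamc : Continuous lam := by
    rw [hlam]
    fun_prop
  have hlam1 : ∀ φ, lam (arc e f1 φ) = Real.sin (θ - φ) := by
    intro φ
    have e1 : inner ℝ e (arc e f1 φ) = Real.cos φ := by
      unfold arc
      rw [inner_add_right, inner_smul_right, inner_smul_right, h1, real_inner_self_eq_norm_sq, he]
      ring
    have e2 : ψ (arc e f1 φ) = Real.sin φ := hψ1 _ _
    rw [hlam]
    simp only
    rw [e1, e2, Real.sin_sub, hcos, hsin]
  have hlam2 : ∀ φ, lam (arc e f2 φ) = Real.sin (θ + φ) := by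
    intro φ
    have e1 : inner ℝ e (arc e f2 φ) = Real.cos φ := by
      unfold arc
      rw [inner_add_right, inner_smul_right, inner_smul_right, h2, real_inner_self_eq_norm_sq, he]
      ring
    have e2 : ψ (arc e f2 φ) = - Real.sin φ := hψ2 _ _
    rw [hlam]
    simp only
    rw [e1, e2, Real.sin_add, hcos, hsin]
    ring
  have hu' : u = arc e f1 θ := by unfold arc; rw [hcos, hsin, hu]
  have hv' : v = arc e f2 (Real.pi - θ) := by
    unfold arc; rw [Real.cos_pi_sub, Real.sin_pi_sub, hcos, hsin, hv]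
  have hplus : ∀ w ∈ M, 0 < lam w → w ∈ arc e f1 '' Icc 0 θ ∪ arc e f2 '' Icc 0 (Real.pi - θ) := by
    intro w hw hl
    rcases hM' w hw with ⟨φ, hφ0, hφ1, rfl⟩ | ⟨φ, hφ0, hφ1, rfl⟩
    · left
      rw [hlam1] at hl
      refine ⟨φ, ⟨hφ0, ?_⟩, rfl⟩
      by_contra hcon
      push Not at hcon
      have : Real.sin (θ - φ) ≤ 0 :=
        Real.sin_nonpos_of_nonpos_of_neg_pi_le (by linarith) (by linarith)
      linarith
    · right
      rw [hlam2] at hl
      refine ⟨φ, ⟨hφ0, ?_⟩, rfl⟩
      by_contra hcon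
      push Not at hcon
      have : Real.sin (θ + φ) ≤ 0 := by
        have h5 : 0 ≤ Real.sin (θ + φ - Real.pi) :=
          Real.sin_nonneg_of_nonneg_of_le_pi (by linarith) (by linarith)
        rw [Real.sin_sub_pi] at h5
        linarith
      linarith
  have hminus : ∀ w ∈ M, lam w < 0 →
      w ∈ arc e f1 '' Icc θ Real.pi ∪ arc e f2 '' Icc (Real.pi - θ) Real.pi := by
    intro w hw hl
    rcases hM' w hw with ⟨φ, hφ0, hφ1, rfl⟩ | ⟨φ, hφ0, hφ1, rfl⟩
    · left
      rw [hlam1] at hl
      refine ⟨φ, ⟨?_, hφ1⟩, rfl⟩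
      by_contra hcon
      push Not at hcon
      have : 0 ≤ Real.sin (θ - φ) :=
        Real.sin_nonneg_of_nonneg_of_le_pi (by linarith) (by linarith)
      linarith
    · right
      rw [hlam2] at hl
      refine ⟨φ, ⟨?_, hφ1⟩, rfl⟩
      by_contra hcon
      push Not at hcon
      have : 0 ≤ Real.sin (θ + φ) :=
        Real.sin_nonneg_of_nonneg_of_le_pi (by linarith) (by linarith)
      linarith
  have hzero : ∀ w ∈ M, lam w = 0 → w = u ∨ w = v := by
    intro w hw hl
    rcases hM' w hw with ⟨φ, hφ0, hφ1, rfl⟩ | ⟨φ, hφ0, hφ1, rfl⟩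
    · rw [hlam1] at hl
      have h5 : θ - φ = 0 ∨ θ - φ = Real.pi ∨ θ - φ = -Real.pi := by
        obtain ⟨n, hn⟩ := Real.sin_eq_zero_iff.mp hl
        have hp := Real.pi_pos
        have n1 : (n : ℝ) * Real.pi ≤ Real.pi := by rw [hn]; linarith
        have n2 : -Real.pi ≤ (n : ℝ) * Real.pi := by rw [hn]; linarith
        have n3 : (n : ℝ) ≤ 1 := by
          by_contra hc; push Not at hc; nlinarith
        have n4 : (-1 : ℝ) ≤ n := by
          by_contra hc; push Not at hc; nlinarith
        have n5 : n ≤ 1 := by exact_mod_cast n3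
        have n6 : -1 ≤ n := by exact_mod_cast n4
        interval_cases n
        · right; right; rw [← hn]; push_cast; ring
        · left; rw [← hn]; push_cast; ring
        · right; left; rw [← hn]; push_cast; ring
      rcases h5 with h5 | h5 | h5
      · left; rw [hu', show φ = θ by linarith]
      · -- θ = π, φ = 0
        have e1 : θ = Real.pi := by linarith
        have e2 : φ = 0 := by linarith
        right
        rw [hv', e1, e2]
        unfold arc
        simp
      · have e1 : θ = 0 := by linarith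
        have e2 : φ = Real.pi := by linarith
        right
        rw [hv', e1, e2]
        unfold arc
        simp
    · rw [hlam2] at hl
      have h5 : θ + φ = 0 ∨ θ + φ = Real.pi ∨ θ + φ = 2 * Real.pi := by
        obtain ⟨n, hn⟩ := Real.sin_eq_zero_iff.mp hl
        have hp := Real.pi_pos
        have n1 : (n : ℝ) * Real.pi ≤ 2 * Real.pi := by rw [hn]; linarith
        have n2 : 0 ≤ (n : ℝ) * Real.pi := by rw [hn]; linarith
        have n3 : (n : ℝ) ≤ 2 := by
          by_contra hc; push Not at hc; nlinarith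
        have n4 : (0 : ℝ) ≤ n := by
          by_contra hc; push Not at hc; nlinarith
        have n5 : n ≤ 2 := by exact_mod_cast n3
        have n6 : 0 ≤ n := by exact_mod_cast n4
        interval_cases n
        · left; rw [← hn]; push_cast; ring
        · right; left; rw [← hn]; push_cast; ring
        · right; right; rw [← hn]; push_cast; ring
      rcases h5 with h5 | h5 | h5
      · have e1 : θ = 0 := by linarith
        have e2 : φ = 0 := by linarith
        left
        rw [hu', e1, e2]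
        unfold arc
        simp
      · right; rw [hv', show φ = Real.pi - θ by linarith]
      · have e1 : θ = Real.pi := by linarith
        have e2 : φ = Real.pi := by linarith
        left
        rw [hu', e1, e2]
        unfold arc
        simp
  intro w hw
  set C := connectedComponentIn (M \ {u, v}) w with hC
  have hCsub : C ⊆ M \ {u, v} := connectedComponentIn_subset _ _
  have hCpre : IsPreconnected C := isPreconnected_connectedComponentIn
  have hwC : w ∈ C := mem_connectedComponentIn hw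
  have hne : ∀ x ∈ C, lam x ≠ 0 := by
    intro x hx h0
    have h6 := hCsub hx
    rcases hzero x h6.1 h0 with h | h
    · exact h6.2 (by rw [h]; simp)
    · exact h6.2 (by rw [h]; simp)
  have hsign : (∀ x ∈ C, 0 < lam x) ∨ (∀ x ∈ C, lam x < 0) := by
    rcases lt_or_gt_of_ne (hne w hwC) with h | h
    · right
      intro x hx
      by_contra hcon
      push Not at hcon
      have := hCpre.intermediate_value hwC hx hlamc.continuousOn
      obtain ⟨z, hz, hz0⟩ := this ⟨h.le, hcon⟩
      exact hne z hz hz0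
    · left
      intro x hx
      by_contra hcon
      push Not at hcon
      have := hCpre.intermediate_value hx hwC hlamc.continuousOn
      obtain ⟨z, hz, hz0⟩ := this ⟨hcon, h.le⟩
      exact hne z hz hz0
  rcases hsign with h | h
  · have hsub : C ⊆ arc e f1 '' Icc 0 θ ∪ arc e f2 '' Icc 0 (Real.pi - θ) :=
      fun x hx => hplus x (hCsub hx).1 (h x hx)
    calc μH[1] C ≤ μH[1] (arc e f1 '' Icc 0 θ ∪ arc e f2 '' Icc 0 (Real.pi - θ)) :=
          measure_mono hsub
      _ ≤ μH[1] (arc e f1 '' Icc 0 θ) + μH[1] (arc e f2 '' Icc 0 (Real.pi - θ)) :=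
          measure_union_le _ _
      _ ≤ ENNReal.ofReal (θ - 0) + ENNReal.ofReal (Real.pi - θ - 0) :=
          add_le_add (arc_measure he hf1 h1 _ _) (arc_measure he hf2 h2 _ _)
      _ = ENNReal.ofReal Real.pi := by
          rw [← ENNReal.ofReal_add (by linarith) (by linarith)]; congr 1; ring
  · have hsub : C ⊆ arc e f1 '' Icc θ Real.pi ∪ arc e f2 '' Icc (Real.pi - θ) Real.pi :=
      fun x hx => hminus x (hCsub hx).1 (h x hx)
    calc μH[1] C ≤ μH[1] (arc e f1 '' Icc θ Real.pi ∪ arc e f2 '' Icc (Real.pi - θ) Real.pi) :=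
          measure_mono hsub
      _ ≤ μH[1] (arc e f1 '' Icc θ Real.pi) + μH[1] (arc e f2 '' Icc (Real.pi - θ) Real.pi) :=
          measure_union_le _ _
      _ ≤ ENNReal.ofReal (Real.pi - θ) + ENNReal.ofReal (Real.pi - (Real.pi - θ)) :=
          add_le_add (arc_measure he hf1 h1 _ _) (arc_measure he hf2 h2 _ _)
      _ = ENNReal.ofReal Real.pi := by
          rw [← ENNReal.ofReal_add (by linarith) (by linarith)]; congr 1; ring

/-! ### Tangent cones of polyhedra given by inequalities -/

section poly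

variable {ι : Type*} [Finite ι] (n : ι → (E3 →L[ℝ] ℝ)) (c : ι → ℝ)

/-- the polyhedron given by the inequalities `n i x ≤ c i` -/
def polySet : Set E3 := {x | ∀ i, n i x ≤ c i}

omit [Finite ι] in
lemma tangentCone_le {p : E3} {w : E3} (hw : w ∈ tangentCone (polySet n c) p)
    {i : ι} (hi : n i p = c i) : n i w ≤ 0 := by
  have hcl : IsClosed {w : E3 | n i w ≤ 0} := isClosed_le (n i).continuous continuous_const
  have hsub : {w : E3 | ∃ x ∈ polySet n c, ∃ r : ℝ, 0 ≤ r ∧ w = r • (x - p)} ⊆
      {w : E3 | n i w ≤ 0} := by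
    rintro w ⟨x, hx, r, hr, rfl⟩
    have h1 : n i x ≤ c i := hx i
    show n i (r • (x - p)) ≤ 0
    rw [map_smul, map_sub, smul_eq_mul]
    exact mul_nonpos_of_nonneg_of_nonpos hr (by linarith)
  exact closure_minimal hsub hcl hw

lemma frontier_tangentCone {p : E3} (hp : p ∈ polySet n c) {w : E3}
    (hw : w ∈ frontier (tangentCone (polySet n c) p)) : ∃ i, n i p = c i ∧ n i w = 0 := by
  by_contra hcon
  push Not at hcon
  have hwc : w ∈ tangentCone (polySet n c) p := by
    have : IsClosed (tangentCone (polySet n c) p) := isClosed_closure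
    exact this.frontier_subset hw
  have hlt : ∀ i, n i p = c i → n i w < 0 := fun i hi =>
    lt_of_le_of_ne (tangentCone_le n c hwc hi) (hcon i hi)
  set U : Set E3 := {w | ∀ i, n i p = c i → n i w < 0} with hU
  have hUo : IsOpen U := by
    have : U = ⋂ i, {w : E3 | n i p = c i → n i w < 0} := by
      ext x; simp [hU]
    rw [this]
    apply isOpen_iInter_of_finite
    intro i
    by_cases hi : n i p = c i
    · simp only [hi, forall_const]
      exact isOpen_lt (n i).continuous continuous_const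
    · simp [hi]
  have hUsub : U ⊆ tangentCone (polySet n c) p := by
    intro x hx
    have hev : ∀ i, ∀ᶠ s : ℝ in 𝓝[>] 0, n i (p + s • x) ≤ c i := by
      intro i
      by_cases hi : n i p = c i
      · filter_upwards [self_mem_nhdsWithin] with s hs
        have hs' : 0 < s := hs
        have := hx i hi
        rw [map_add, map_smul, smul_eq_mul, hi]
        nlinarith
      · have h1 : n i p < c i := lt_of_le_of_ne (hp i) hi
        have h2 : Filter.Tendsto (fun s : ℝ => n i (p + s • x)) (𝓝 0) (𝓝 (n i p)) := by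
          have h3 : Continuous (fun s : ℝ => n i (p + s • x)) := by fun_prop
          have h4 := h3.tendsto 0
          simpa using h4
        have h5 := (h2.eventually (gt_mem_nhds h1)).filter_mono
          (nhdsWithin_le_nhds (s := Set.Ioi 0))
        filter_upwards [h5] with s hs using hs.le
    have hall : ∀ᶠ s : ℝ in 𝓝[>] 0, ∀ i, n i (p + s • x) ≤ c i := Filter.eventually_all.mpr hev
    obtain ⟨s, hs1, hs2⟩ := (hall.and self_mem_nhdsWithin).exists
    have hs' : 0 < s := hs2
    apply subset_closure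
    refine ⟨p + s • x, hs1, s⁻¹, by positivity, ?_⟩
    rw [add_sub_cancel_left, smul_smul, inv_mul_cancel₀ hs'.ne', one_smul]
  have hint : w ∈ interior (tangentCone (polySet n c) p) :=
    interior_maximal hUsub hUo hlt
  exact hw.2 hint

end poly

/-! ### The regular tetrahedron -/

/-- the linear functional with coefficients `a, b, c` -/
noncomputable def nf (a b c : ℝ) : E3 →L[ℝ] ℝ :=
  a • EuclideanSpace.proj 0 + b • EuclideanSpace.proj 1 + c • EuclideanSpace.proj 2

lemma nf_apply (a b c : ℝ) (x : E3) : nf a b c x = a * x 0 + b * x 1 + c * x 2 := by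
  simp [nf]


noncomputable def nfam : Fin 4 → (E3 →L[ℝ] ℝ) :=
  ![nf 1 1 1, nf 1 (-1) (-1), nf (-1) 1 (-1), nf (-1) (-1) 1]

lemma nfam_sign (i : Fin 4) : ∃ a b c, IsSign a b c ∧ nfam i = nf a b c := by
  fin_cases i
  · exact ⟨1, 1, 1, by simp [IsSign], rfl⟩
  · exact ⟨1, -1, -1, by simp [IsSign], rfl⟩
  · exact ⟨-1, 1, -1, by simp [IsSign], rfl⟩
  · exact ⟨-1, -1, 1, by simp [IsSign], rfl⟩

lemma sign_nfam {a b c : ℝ} (h : IsSign a b c) : ∃ i, nfam i = nf a b c := by
  obtain ⟨h1 | h1, h2 | h2, h3⟩ := h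
  · exact ⟨0, by rw [h3, h1, h2]; simp [nfam]⟩
  · exact ⟨1, by rw [h3, h1, h2]; simp [nfam]⟩
  · exact ⟨2, by rw [h3, h1, h2]; simp [nfam]⟩
  · exact ⟨3, by rw [h3, h1, h2]; simp [nfam]⟩

/-- the tetrahedron given by inequalities -/
def T : Set E3 := polySet nfam (fun _ => 1)

lemma mem_T {x : E3} : x ∈ T ↔ ∀ a b c, IsSign a b c → a * x 0 + b * x 1 + c * x 2 ≤ 1 := by
  constructor
  · intro h a b c hs
    obtain ⟨i, hi⟩ := sign_nfam hs
    have := h i
    rw [hi, nf_apply] at this
    exact this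
  · intro h i
    obtain ⟨a, b, c, hs, hi⟩ := nfam_sign i
    rw [hi, nf_apply]
    exact h a b c hs

/-- The vertices of the tetrahedron. -/
noncomputable def V (i : Fin 4) : E3 := ![!₂[-1, -1, -1], !₂[-1, 1, 1], !₂[1, -1, 1], !₂[1, 1, -1]] i

lemma V_mem (i : Fin 4) : V i ∈ T := by
  rw [mem_T]
  rintro a b c ⟨h1 | h1, h2 | h2, h3⟩ <;> subst h1 <;> subst h2 <;> subst h3 <;>
    fin_cases i <;> simp [V] <;> norm_num

lemma T_convex : Convex ℝ T := by
  have : T = ⋂ i, {x : E3 | nfam i x ≤ 1} := by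
    ext x; simp [T, polySet]
  rw [this]
  apply convex_iInter
  intro i
  exact convex_halfSpace_le (nfam i).isLinear 1

/-- The solid regular tetrahedron with vertices `(-1,-1,-1), (-1,1,1), (1,-1,1), (1,1,-1)`. -/
noncomputable def Tet : Set E3 := convexHull ℝ (Set.range V)

lemma Tet_eq : Tet = T := by
  apply Set.Subset.antisymm
  · apply convexHull_min _ T_convex
    rintro _ ⟨i, rfl⟩
    exact V_mem i
  · intro x hx
    rw [mem_T] at hx
    have h0 := hx 1 1 1 (by simp [IsSign])
    have h1 := hx 1 (-1) (-1) (by simp [IsSign])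
    have h2 := hx (-1) 1 (-1) (by simp [IsSign])
    have h3 := hx (-1) (-1) 1 (by simp [IsSign])
    set wt : Fin 4 → ℝ := ![(1 - (x 0 + x 1 + x 2)) / 4, (1 - (x 0 - x 1 - x 2)) / 4,
      (1 - (-x 0 + x 1 - x 2)) / 4, (1 - (-x 0 - x 1 + x 2)) / 4] with hwt
    have hx' : x = ∑ i, wt i • V i := by
      ext j
      rw [Fin.sum_univ_four]
      fin_cases j <;> simp [hwt, V] <;> ring
    rw [hx']
    apply (convex_convexHull ℝ _).sum_mem
    · intro i _
      fin_cases i <;> simp [hwt] <;> linarith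
    · rw [Fin.sum_univ_four]; simp [hwt]; ring
    · intro i _
      exact subset_convexHull ℝ _ ⟨i, rfl⟩

lemma abs_coord_le (x : E3) (i : Fin 3) : |x i| ≤ ‖x‖ := by
  have := EuclideanSpace.norm_eq x
  rw [this]
  apply Real.abs_le_sqrt
  have h := Finset.single_le_sum (f := fun j => ‖x j‖ ^ 2) (fun j _ => by positivity)
    (Finset.mem_univ i)
  simpa using h

lemma T_interior : (interior T).Nonempty := by
  refine ⟨0, ?_⟩
  rw [mem_interior]
  refine ⟨Metric.ball 0 (1 / 3), ?_, Metric.isOpen_ball, by simp⟩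
  intro x hx
  rw [mem_ball_zero_iff] at hx
  have h0 := abs_le.mp (abs_coord_le x 0)
  have h1 := abs_le.mp (abs_coord_le x 1)
  have h2 := abs_le.mp (abs_coord_le x 2)
  rw [mem_T]
  rintro a b c ⟨h3 | h3, h4 | h4, h5⟩ <;> subst h3 <;> subst h4 <;> subst h5 <;>
    norm_num <;> linarith [h0.1, h0.2, h1.1, h1.2, h2.1, h2.2]

lemma T_closed : IsClosed T := by
  have : T = ⋂ i, {x : E3 | nfam i x ≤ 1} := by
    ext x; simp [T, polySet]
  rw [this]
  apply isClosed_iInter
  intro i
  exact isClosed_le (nfam i).continuous continuous_const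

lemma Tet_poly : IsNondegenerateConvexPolyhedron Tet := by
  refine ⟨⟨Set.range V, Set.finite_range V, rfl⟩, ?_⟩
  rw [Tet_eq]; exact T_interior

lemma mem_frontier_T {p : E3} (hp : p ∈ T) {a b c : ℝ} (hs : IsSign a b c)
    (h : a * p 0 + b * p 1 + c * p 2 = 1) : p ∈ frontier T := by
  rw [T_closed.frontier_eq]
  refine ⟨hp, ?_⟩
  intro hint
  set q : E3 := !₂[a, b, c] with hq
  have hcont : Filter.Tendsto (fun s : ℝ => p + s • q) (𝓝 0) (𝓝 p) := by
    have h3 : Continuous (fun s : ℝ => p + s • q) := by fun_prop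
    have h4 := h3.tendsto 0
    simpa using h4
  have hev := (hcont.eventually (mem_interior_iff_mem_nhds.mp hint)).filter_mono
          (nhdsWithin_le_nhds (s := Set.Ioi 0))
  obtain ⟨s, hs1, hs2⟩ := (hev.and self_mem_nhdsWithin).exists
  have hs' : 0 < s := hs2
  have hs3 : p + s • q ∈ T := hs1
  rw [mem_T] at hs3
  have h5 := hs3 a b c hs
  simp only [hq, PiLp.add_apply, PiLp.smul_apply, smul_eq_mul] at h5
  simp at h5
  obtain ⟨h6 | h6, h7 | h7, h8⟩ := hs <;> subst h6 <;> subst h7 <;> subst h8 <;> nlinarith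

end Pool.Agent.H44.Quasi
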