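import Mathlib
import Pool.Agent.H44.QuasiTet

set_option autoImplicit false
open MeasureTheory Topology Set

namespace Pool.Agent.H44.Quasi

/-! ### Links of the tetrahedron -/

lemma link_le {p w : E3} (hw : w ∈ link T p) {a b c : ℝ} (hs : IsSign a b c)
    (h : a * p 0 + b * p 1 + c * p 2 = 1) : a * w 0 + b * w 1 + c * w 2 ≤ 0 := by
  obtain ⟨i, hi⟩ := sign_nfam hs
  have hwc : w ∈ tangentCone T p := by
    have : IsClosed (tangentCone T p) := isClosed_closure
    exact this.frontier_subset hw.1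
  have h1 : nfam i p = 1 := by rw [hi, nf_apply]; exact h
  have := tangentCone_le nfam (fun _ => 1) (p := p) (w := w) hwc (i := i) h1
  rw [hi, nf_apply] at this
  exact this

lemma link_eq {p w : E3} (hp : p ∈ T) (hw : w ∈ link T p) :
    ∃ a b c, IsSign a b c ∧ a * p 0 + b * p 1 + c * p 2 = 1 ∧
      a * w 0 + b * w 1 + c * w 2 = 0 := by
  obtain ⟨i, hi1, hi2⟩ := frontier_tangentCone nfam (fun _ => 1) hp hw.1
  obtain ⟨a, b, c, hs, hi⟩ := nfam_sign i
  rw [hi, nf_apply] at hi1 hi2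
  exact ⟨a, b, c, hs, hi1, hi2⟩

lemma link_norm {K : Set E3} {p w : E3} (hw : w ∈ link K p) :
    w 0 ^ 2 + w 1 ^ 2 + w 2 ^ 2 = 1 := by
  have h1 := mem_sphere_zero_iff_norm.mp hw.2
  have h2 := EuclideanSpace.norm_sq_eq w
  rw [h1, Fin.sum_univ_three] at h2
  simp only [Real.norm_eq_abs, sq_abs] at h2
  linarith

lemma norm_one_of {x y z : ℝ} (h : x ^ 2 + y ^ 2 + z ^ 2 = 1) : ‖(!₂[x, y, z] : E3)‖ = 1 := by
  have h2 := EuclideanSpace.norm_sq_eq (!₂[x, y, z] : E3)
  rw [Fin.sum_univ_three] at h2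
  simp at h2
  have h3 : ‖(!₂[x, y, z] : E3)‖ ^ 2 = 1 := by rw [h2]; exact h
  nlinarith [norm_nonneg (!₂[x, y, z] : E3)]

lemma inner_lit (x y z x' y' z' : ℝ) :
    inner ℝ (!₂[x, y, z] : E3) (!₂[x', y', z'] : E3) = x * x' + y * y' + z * z' := by
  simp [PiLp.inner_apply, Fin.sum_univ_three]
  ring

/-- square roots -/
noncomputable def r2 : ℝ := Real.sqrt 2
noncomputable def r6 : ℝ := Real.sqrt 6
lemma r2_sq : r2 ^ 2 = 2 := Real.sq_sqrt (by norm_num)
lemma r6_sq : r6 ^ 2 = 6 := Real.sq_sqrt (by norm_num)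
lemma r2_pos : 0 < r2 := Real.sqrt_pos.mpr (by norm_num)
lemma r6_pos : 0 < r6 := Real.sqrt_pos.mpr (by norm_num)

/-- frame for the edge where coordinate 0 is extreme -/
noncomputable def eX (b c : ℝ) : E3 := !₂[0, b / r2, -c / r2]
noncomputable def fX (a b c : ℝ) : E3 := !₂[-2 * a / r6, b / r6, c / r6]

lemma sign_sq {a b c : ℝ} (h : IsSign a b c) : a ^ 2 = 1 ∧ b ^ 2 = 1 ∧ c ^ 2 = 1 ∧
    a * b = c ∧ b * c = a ∧ a * c = b := by
  obtain ⟨h1 | h1, h2 | h2, h3⟩ := h <;> subst h1 <;> subst h2 <;> subst h3 <;> norm_num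

lemma sign_neg12 {a b c : ℝ} (h : IsSign a b c) : IsSign a (-b) (-c) := by
  obtain ⟨h1 | h1, h2 | h2, h3⟩ := h <;> subst h1 <;> subst h2 <;> subst h3 <;> simp [IsSign]

lemma sign_neg01 {a b c : ℝ} (h : IsSign a b c) : IsSign (-a) (-b) c := by
  obtain ⟨h1 | h1, h2 | h2, h3⟩ := h <;> subst h1 <;> subst h2 <;> subst h3 <;> simp [IsSign]

lemma sign_neg02 {a b c : ℝ} (h : IsSign a b c) : IsSign (-a) b (-c) := by
  obtain ⟨h1 | h1, h2 | h2, h3⟩ := h <;> subst h1 <;> subst h2 <;> subst h3 <;> simp [IsSign]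

lemma eX_norm {a b c : ℝ} (h : IsSign a b c) : ‖eX b c‖ = 1 := by
  obtain ⟨-, hb, hc, -⟩ := sign_sq h
  apply norm_one_of
  have := r2_sq
  have h2 := r2_pos.ne'
  field_simp
  nlinarith

lemma fX_norm {a b c : ℝ} (h : IsSign a b c) : ‖fX a b c‖ = 1 := by
  obtain ⟨ha, hb, hc, -⟩ := sign_sq h
  apply norm_one_of
  have := r6_sq
  have h2 := r6_pos.ne'
  field_simp
  nlinarith

lemma eX_fX {a b c : ℝ} (h : IsSign a b c) : inner ℝ (eX b c) (fX a b c) = 0 := by
  obtain ⟨ha, hb, hc, -⟩ := sign_sq h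
  unfold eX fX
  rw [inner_lit]
  have h2 := r2_pos.ne'
  have h6 := r6_pos.ne'
  field_simp
  nlinarith

/-- decomposition of a vector of the face plane -/
lemma decX {a b c : ℝ} (h : IsSign a b c) {w : E3} (hw : a * w 0 + b * w 1 + c * w 2 = 0) :
    w = ((b * w 1 - c * w 2) / r2) • eX b c + (-3 * a * w 0 / r6) • fX a b c := by
  obtain ⟨ha, hb, hc, hab, hbc, hac⟩ := sign_sq h
  have h2 := r2_pos.ne'
  have h6 := r6_pos.ne'
  have q2 := r2_sq
  have q6 := r6_sq
  ext j
  fin_cases j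
  · simp [eX, fX]
    field_simp
    rw [q6]
    linear_combination (-6 * w 0) * ha
  · simp [eX, fX]
    field_simp
    rw [q6, q2]
    obtain ⟨h1 | h1, h2 | h2, h3⟩ := h <;> subst h1 <;> subst h2 <;> subst h3 <;>
      norm_num at hw ⊢ <;> linarith
  · simp [eX, fX]
    field_simp
    rw [q6, q2]
    obtain ⟨h1 | h1, h2 | h2, h3⟩ := h <;> subst h1 <;> subst h2 <;> subst h3 <;>
      norm_num at hw ⊢ <;> linarith

lemma decX_sq {a b c : ℝ} (h : IsSign a b c) {w : E3} (hw : a * w 0 + b * w 1 + c * w 2 = 0) :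
    ((b * w 1 - c * w 2) / r2) ^ 2 + (-3 * a * w 0 / r6) ^ 2 = w 0 ^ 2 + w 1 ^ 2 + w 2 ^ 2 := by
  rw [div_pow, div_pow, r2_sq, r6_sq]
  obtain ⟨h1 | h1, h2 | h2, h3⟩ := h <;> subst h1 <;> subst h2 <;> subst h3 <;>
      norm_num at hw ⊢
  · have : w 2 = - w 0 - w 1 := by linarith
    rw [this]; ring
  · have : w 2 = w 0 - w 1 := by linarith
    rw [this]; ring
  · have : w 2 = -w 0 + w 1 := by linarith
    rw [this]; ring
  · have : w 2 = w 0 + w 1 := by linarith
    rw [this]; ring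

/-- the unfolding functional -/
noncomputable def psX (b c : ℝ) (w : E3) : ℝ := (r6 / 2) * (b * w 1 + c * w 2)

lemma psX_cont (b c : ℝ) : Continuous (psX b c) := by
  unfold psX; fun_prop

lemma psX_eval {a b c : ℝ} (h : IsSign a b c) (x y : ℝ) :
    psX b c (x • eX b c + y • fX a b c) = y := by
  obtain ⟨ha, hb, hc, hab, hbc, hac⟩ := sign_sq h
  have h2 := r2_pos.ne'
  have h6 := r6_pos.ne'
  have q2 := r2_sq
  have q6 := r6_sq
  unfold psX
  simp [eX, fX]
  field_simp
  linear_combination (x * r6 + r2 * y) * hb + (-x * r6 + r2 * y) * hc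

lemma psX_eval' {a b c : ℝ} (h : IsSign a b c) (x y : ℝ) :
    psX b c (x • eX b c + y • fX a (-b) (-c)) = -y := by
  obtain ⟨ha, hb, hc, hab, hbc, hac⟩ := sign_sq h
  have h2 := r2_pos.ne'
  have h6 := r6_pos.ne'
  have q2 := r2_sq
  have q6 := r6_sq
  unfold psX
  simp [eX, fX]
  field_simp
  linear_combination (x * r6 - r2 * y) * hb + (-x * r6 - r2 * y) * hc

/-- frame for the edge where coordinate 2 is extreme -/
noncomputable def eZ (a b : ℝ) : E3 := !₂[-a / r2, b / r2, 0]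
noncomputable def fZ (a b c : ℝ) : E3 := !₂[a / r6, b / r6, -2 * c / r6]

lemma eZ_norm {a b c : ℝ} (h : IsSign a b c) : ‖eZ a b‖ = 1 := by
  obtain ⟨ha, hb, hc, -⟩ := sign_sq h
  apply norm_one_of
  have := r2_sq
  have h2 := r2_pos.ne'
  field_simp
  nlinarith

lemma fZ_norm {a b c : ℝ} (h : IsSign a b c) : ‖fZ a b c‖ = 1 := by
  obtain ⟨ha, hb, hc, -⟩ := sign_sq h
  apply norm_one_of
  have := r6_sq
  have h2 := r6_pos.ne'
  field_simp
  nlinarith

lemma eZ_fZ {a b c : ℝ} (h : IsSign a b c) : inner ℝ (eZ a b) (fZ a b c) = 0 := by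
  obtain ⟨ha, hb, hc, -⟩ := sign_sq h
  unfold eZ fZ
  rw [inner_lit]
  have h2 := r2_pos.ne'
  have h6 := r6_pos.ne'
  field_simp
  nlinarith

lemma decZ {a b c : ℝ} (h : IsSign a b c) {w : E3} (hw : a * w 0 + b * w 1 + c * w 2 = 0) :
    w = ((b * w 1 - a * w 0) / r2) • eZ a b + (-3 * c * w 2 / r6) • fZ a b c := by
  obtain ⟨ha, hb, hc, hab, hbc, hac⟩ := sign_sq h
  have h2 := r2_pos.ne'
  have h6 := r6_pos.ne'
  have q2 := r2_sq
  have q6 := r6_sq
  ext j
  fin_cases j
  · simp [eZ, fZ]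
    field_simp
    rw [q6, q2]
    obtain ⟨h1 | h1, h2 | h2, h3⟩ := h <;> subst h1 <;> subst h2 <;> subst h3 <;>
      norm_num at hw ⊢ <;> linarith
  · simp [eZ, fZ]
    field_simp
    rw [q6, q2]
    obtain ⟨h1 | h1, h2 | h2, h3⟩ := h <;> subst h1 <;> subst h2 <;> subst h3 <;>
      norm_num at hw ⊢ <;> linarith
  · simp [eZ, fZ]
    field_simp
    rw [q6]
    linear_combination (-6 * w 2) * hc

lemma decZ_sq {a b c : ℝ} (h : IsSign a b c) {w : E3} (hw : a * w 0 + b * w 1 + c * w 2 = 0) :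
    ((b * w 1 - a * w 0) / r2) ^ 2 + (-3 * c * w 2 / r6) ^ 2 = w 0 ^ 2 + w 1 ^ 2 + w 2 ^ 2 := by
  rw [div_pow, div_pow, r2_sq, r6_sq]
  obtain ⟨h1 | h1, h2 | h2, h3⟩ := h <;> subst h1 <;> subst h2 <;> subst h3 <;>
      norm_num at hw ⊢
  · have : w 2 = - w 0 - w 1 := by linarith
    rw [this]; ring
  · have : w 2 = w 0 - w 1 := by linarith
    rw [this]; ring
  · have : w 2 = -w 0 + w 1 := by linarith
    rw [this]; ring
  · have : w 2 = w 0 + w 1 := by linarith
    rw [this]; ring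

noncomputable def psZ (a b : ℝ) (w : E3) : ℝ := (r6 / 2) * (a * w 0 + b * w 1)

lemma psZ_cont (a b : ℝ) : Continuous (psZ a b) := by
  unfold psZ; fun_prop

lemma psZ_eval {a b c : ℝ} (h : IsSign a b c) (x y : ℝ) :
    psZ a b (x • eZ a b + y • fZ a b c) = y := by
  obtain ⟨ha, hb, hc, hab, hbc, hac⟩ := sign_sq h
  have h2 := r2_pos.ne'
  have h6 := r6_pos.ne'
  have q2 := r2_sq
  have q6 := r6_sq
  unfold psZ
  simp [eZ, fZ]
  field_simp
  linear_combination (x * r6 + r2 * y) * hb + (-x * r6 + r2 * y) * ha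

lemma psZ_eval' {a b c : ℝ} (h : IsSign a b c) (x y : ℝ) :
    psZ a b (x • eZ a b + y • fZ (-a) (-b) c) = -y := by
  obtain ⟨ha, hb, hc, hab, hbc, hac⟩ := sign_sq h
  have h2 := r2_pos.ne'
  have h6 := r6_pos.ne'
  have q2 := r2_sq
  have q6 := r6_sq
  unfold psZ
  simp [eZ, fZ]
  field_simp
  linear_combination (x * r6 - r2 * y) * hb + (-x * r6 - r2 * y) * ha

lemma norm_sq_E3 (u : E3) : ‖u‖ ^ 2 = u 0 ^ 2 + u 1 ^ 2 + u 2 ^ 2 := by
  have h2 := EuclideanSpace.norm_sq_eq u
  rw [Fin.sum_univ_three] at h2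
  simpa using h2

/-- Crossing an edge on which coordinate `0` is extreme. -/
lemma side_X {p u v : E3} (hp : p ∈ T) {a b c : ℝ} (hs : IsSign a b c)
    (hact : a * p 0 + b * p 1 + c * p 2 = 1) (hp0 : a * p 0 = 1)
    (hp1 : |p 1| < 1) (hu : a * u 0 + b * u 1 + c * u 2 = 0)
    (hu0 : a * u 0 ≤ 0) (hune : u ≠ 0)
    (hv0 : v 0 = u 0) (hv1 : v 1 = - u 1) (hv2 : v 2 = - u 2) :
    SideAnglesLE T p u v := by
  have hs' := sign_neg12 hs
  have hp1' := abs_lt.mp hp1
  -- norms
  have hnu : 0 < ‖u‖ := norm_pos_iff.mpr hune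
  have hnv : ‖v‖ = ‖u‖ := by
    have h1 := norm_sq_E3 u
    have h2 := norm_sq_E3 v
    rw [hv0, hv1, hv2] at h2
    have h3 : ‖v‖ ^ 2 = ‖u‖ ^ 2 := by rw [h1, h2]; ring
    exact (sq_eq_sq₀ (norm_nonneg _) (norm_nonneg _)).mp h3
  have hact' : a * p 0 + (-b) * p 1 + (-c) * p 2 = 1 := by linarith
  have hv : a * v 0 + (-b) * v 1 + (-c) * v 2 = 0 := by
    rw [hv0, hv1, hv2]; linarith
  unfold SideAnglesLE
  apply two_half (e := eX b c) (f1 := fX a b c) (f2 := fX a (-b) (-c)) (psX b c) (psX_cont b c)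
    (eX_norm hs) (fX_norm hs) (fX_norm hs') (eX_fX hs) _
    (a := ‖u‖⁻¹ * ((b * u 1 - c * u 2) / r2)) (b := ‖u‖⁻¹ * (-3 * a * u 0 / r6))
  · rw [mul_pow, mul_pow, ← mul_add, decX_sq hs hu, ← norm_sq_E3]
    field_simp
  · have := r6_pos
    apply mul_nonneg (by positivity)
    apply div_nonneg _ this.le
    linarith
  · rw [mul_smul, mul_smul, ← smul_add, ← decX hs hu]
  · have e1 : eX (-b) (-c) = - eX b c := by
      ext j; fin_cases j <;> simp [eX] <;> ring
    have hd : v = (-((b * u 1 - c * u 2) / r2)) • eX b c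
        + (-3 * a * u 0 / r6) • fX a (-b) (-c) := by
      have h5 := decX hs' hv
      rw [e1, hv0, hv1, hv2, smul_neg, ← neg_smul] at h5
      rw [h5]
      congr 2
      ring
    rw [← mul_neg, mul_smul, mul_smul, ← smul_add, ← hd, hnv]
  · exact psX_eval hs
  · exact psX_eval' hs
  · intro w hw
    have hn := link_norm hw
    have hle1 := link_le hw hs hact
    have hle2 := link_le hw hs' hact'
    obtain ⟨a', b', c', hs2, hact2, hw2⟩ := link_eq hp hw
    -- which face?
    have hcase : (a' = a ∧ b' = b ∧ c' = c) ∨ (a' = a ∧ b' = -b ∧ c' = -c) := by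
      have hbp : c * p 2 = - (b * p 1) := by linarith
      obtain ⟨ha | ha, hb | hb, hc⟩ := hs <;> obtain ⟨ha' | ha', hb' | hb', hc'⟩ := hs2 <;>
        subst ha <;> subst hb <;> subst hc <;> subst ha' <;> subst hb' <;> subst hc' <;>
        norm_num <;> exfalso <;> norm_num at * <;> linarith
    rcases hcase with ⟨rfl, rfl, rfl⟩ | ⟨rfl, rfl, rfl⟩
    · left
      refine ⟨(b' * w 1 - c' * w 2) / r2, -3 * a' * w 0 / r6, ?_, ?_, decX hs hw2⟩
      · apply div_nonneg _ r6_pos.le
        linarith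
      · rw [decX_sq hs hw2]; exact hn
    · right
      refine ⟨-((-b * w 1 - -c * w 2) / r2), -3 * a' * w 0 / r6, ?_, ?_, ?_⟩
      · apply div_nonneg _ r6_pos.le
        linarith
      · have := decX_sq hs' hw2
        rw [neg_sq, this]; exact hn
      · have e1 : eX (-b) (-c) = - eX b c := by
          ext j; fin_cases j <;> simp [eX] <;> ring
        have := decX hs' hw2
        rw [e1, smul_neg, ← neg_smul] at this
        exact this
  · unfold eX fX
    rw [inner_lit]
    obtain ⟨ha, hb, hc, -⟩ := sign_sq hs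
    have h2 := r2_pos.ne'
    have h6 := r6_pos.ne'
    field_simp
    nlinarith

/-- Crossing an edge on which coordinate `2` is extreme. -/
lemma side_Z {p u v : E3} (hp : p ∈ T) {a b c : ℝ} (hs : IsSign a b c)
    (hact : a * p 0 + b * p 1 + c * p 2 = 1) (hp2 : c * p 2 = 1)
    (hp1 : |p 1| < 1) (hu : a * u 0 + b * u 1 + c * u 2 = 0)
    (hu2 : c * u 2 ≤ 0) (hune : u ≠ 0)
    (hv0 : v 0 = - u 0) (hv1 : v 1 = - u 1) (hv2 : v 2 = u 2) :
    SideAnglesLE T p u v := by
  have hs' := sign_neg01 hs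
  have hp1' := abs_lt.mp hp1
  -- norms
  have hnu : 0 < ‖u‖ := norm_pos_iff.mpr hune
  have hnv : ‖v‖ = ‖u‖ := by
    have h1 := norm_sq_E3 u
    have h2 := norm_sq_E3 v
    rw [hv0, hv1, hv2] at h2
    have h3 : ‖v‖ ^ 2 = ‖u‖ ^ 2 := by rw [h1, h2]; ring
    exact (sq_eq_sq₀ (norm_nonneg _) (norm_nonneg _)).mp h3
  have hact' : (-a) * p 0 + (-b) * p 1 + c * p 2 = 1 := by linarith
  have hv : (-a) * v 0 + (-b) * v 1 + c * v 2 = 0 := by
    rw [hv0, hv1, hv2]; linarith
  have e1 : eZ (-a) (-b) = - eZ a b := by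
    ext j; fin_cases j <;> simp [eZ] <;> ring
  unfold SideAnglesLE
  apply two_half (e := eZ a b) (f1 := fZ a b c) (f2 := fZ (-a) (-b) c) (psZ a b) (psZ_cont a b)
    (eZ_norm hs) (fZ_norm hs) (fZ_norm hs') (eZ_fZ hs) _
    (a := ‖u‖⁻¹ * ((b * u 1 - a * u 0) / r2)) (b := ‖u‖⁻¹ * (-3 * c * u 2 / r6))
  · rw [mul_pow, mul_pow, ← mul_add, decZ_sq hs hu, ← norm_sq_E3]
    field_simp
  · have := r6_pos
    apply mul_nonneg (by positivity)
    apply div_nonneg _ this.le
    linarith
  · rw [mul_smul, mul_smul, ← smul_add, ← decZ hs hu]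
  · have hd : v = (-((b * u 1 - a * u 0) / r2)) • eZ a b
        + (-3 * c * u 2 / r6) • fZ (-a) (-b) c := by
      have h5 := decZ hs' hv
      rw [e1, hv0, hv1, hv2, smul_neg, ← neg_smul] at h5
      rw [h5]
      congr 2
      ring
    rw [← mul_neg, mul_smul, mul_smul, ← smul_add, ← hd, hnv]
  · exact psZ_eval hs
  · exact psZ_eval' hs
  · intro w hw
    have hn := link_norm hw
    have hle1 := link_le hw hs hact
    have hle2 := link_le hw hs' hact'
    obtain ⟨a', b', c', hs2, hact2, hw2⟩ := link_eq hp hw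
    -- which face?
    have hcase : (a' = a ∧ b' = b ∧ c' = c) ∨ (a' = -a ∧ b' = -b ∧ c' = c) := by
      have hbp : a * p 0 = - (b * p 1) := by linarith
      obtain ⟨ha | ha, hb | hb, hc⟩ := hs <;> obtain ⟨ha' | ha', hb' | hb', hc'⟩ := hs2 <;>
        subst ha <;> subst hb <;> subst hc <;> subst ha' <;> subst hb' <;> subst hc' <;>
        norm_num <;> exfalso <;> norm_num at * <;> linarith
    rcases hcase with ⟨rfl, rfl, rfl⟩ | ⟨rfl, rfl, rfl⟩
    · left
      refine ⟨(b' * w 1 - a' * w 0) / r2, -3 * c' * w 2 / r6, ?_, ?_, decZ hs hw2⟩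
      · apply div_nonneg _ r6_pos.le
        linarith
      · rw [decZ_sq hs hw2]; exact hn
    · right
      refine ⟨-((-b * w 1 - -a * w 0) / r2), -3 * c' * w 2 / r6, ?_, ?_, ?_⟩
      · apply div_nonneg _ r6_pos.le
        linarith
      · have := decZ_sq hs' hw2
        rw [neg_sq, this]; exact hn
      · have := decZ hs' hw2
        rw [e1, smul_neg, ← neg_smul] at this
        exact this
  · unfold eZ fZ
    rw [inner_lit]
    obtain ⟨ha, hb, hc, -⟩ := sign_sq hs
    have h2 := r2_pos.ne'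
    have h6 := r6_pos.ne'
    field_simp
    nlinarith

/-- Passing straight through the interior of a face. -/
lemma side_face {p u : E3} (hp : p ∈ T) {a b c : ℝ} (hs : IsSign a b c)
    (hact : a * p 0 + b * p 1 + c * p 2 = 1) (hp0 : |p 0| < 1)
    (hp1 : |p 1| < 1) (hp2 : |p 2| < 1) (hu : a * u 0 + b * u 1 + c * u 2 = 0)
    (hune : u ≠ 0) :
    SideAnglesLE T p u (-u) := by
  have hp0' := abs_lt.mp hp0
  have hp1' := abs_lt.mp hp1
  have hp2' := abs_lt.mp hp2
  have hnu : 0 < ‖u‖ := norm_pos_iff.mpr hune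
  have hM : ∀ w ∈ link T p, a * w 0 + b * w 1 + c * w 2 = 0 := by
    intro w hw
    obtain ⟨a', b', c', hs2, hact2, hw2⟩ := link_eq hp hw
    have hcase : (a' = a ∧ b' = b ∧ c' = c) := by
      obtain ⟨ha | ha, hb | hb, hc⟩ := hs <;> obtain ⟨ha' | ha', hb' | hb', hc'⟩ := hs2 <;>
        subst ha <;> subst hb <;> subst hc <;> subst ha' <;> subst hb' <;> subst hc' <;>
        norm_num <;> exfalso <;> norm_num at * <;> linarith
    obtain ⟨rfl, rfl, rfl⟩ := hcase
    exact hw2
  unfold SideAnglesLE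
  have hnorm : (‖u‖⁻¹ * ((b * u 1 - c * u 2) / r2)) ^ 2 + (‖u‖⁻¹ * (-3 * a * u 0 / r6)) ^ 2
      = 1 := by
    rw [mul_pow, mul_pow, ← mul_add, decX_sq hs hu, ← norm_sq_E3]
    field_simp
  have hneg : ‖-u‖⁻¹ • (-u) = -(‖u‖⁻¹ • u) := by rw [norm_neg, smul_neg]
  have hdec : ‖u‖⁻¹ • u = (‖u‖⁻¹ * ((b * u 1 - c * u 2) / r2)) • eX b c
      + (‖u‖⁻¹ * (-3 * a * u 0 / r6)) • fX a b c := by
    rw [mul_smul, mul_smul, ← smul_add, ← decX hs hu]
  rcases le_total 0 (‖u‖⁻¹ * (-3 * a * u 0 / r6)) with h0 | h0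
  · apply two_half (e := eX b c) (f1 := fX a b c) (f2 := -fX a b c) (psX b c) (psX_cont b c)
      (eX_norm hs) (fX_norm hs) (by rw [norm_neg]; exact fX_norm hs) (eX_fX hs)
      (by rw [inner_neg_right, eX_fX hs, neg_zero])
      (a := ‖u‖⁻¹ * ((b * u 1 - c * u 2) / r2)) (b := ‖u‖⁻¹ * (-3 * a * u 0 / r6)) hnorm h0 hdec
    · rw [hneg, hdec]; module
    · exact psX_eval hs
    · intro x y
      have := psX_eval hs x (-y)
      rw [neg_smul, ← smul_neg] at this
      exact this
    · intro w hw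
      have hn := link_norm hw
      have hw2 := hM w hw
      rcases le_total 0 (-3 * a * w 0 / r6) with h1 | h1
      · left
        exact ⟨_, _, h1, by rw [decX_sq hs hw2]; exact hn, decX hs hw2⟩
      · right
        refine ⟨(b * w 1 - c * w 2) / r2, -(-3 * a * w 0 / r6), by linarith, ?_, ?_⟩
        · rw [neg_sq, decX_sq hs hw2]; exact hn
        · have := decX hs hw2
          rw [smul_neg, neg_smul, neg_neg]
          exact this
  · apply two_half (e := eX b c) (f1 := -fX a b c) (f2 := fX a b c) (fun w => - psX b c w)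
      (psX_cont b c).neg
      (eX_norm hs) (by rw [norm_neg]; exact fX_norm hs) (fX_norm hs)
      (by rw [inner_neg_right, eX_fX hs, neg_zero]) (eX_fX hs)
      (a := ‖u‖⁻¹ * ((b * u 1 - c * u 2) / r2)) (b := -(‖u‖⁻¹ * (-3 * a * u 0 / r6)))
    · rw [neg_sq]; exact hnorm
    · linarith
    · rw [hdec]; module
    · rw [hneg, hdec]; module
    · intro x y
      have := psX_eval hs x (-y)
      rw [neg_smul, ← smul_neg] at this
      simp only [this, neg_neg]
    · intro x y
      simp only [psX_eval hs x y]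
    · intro w hw
      have hn := link_norm hw
      have hw2 := hM w hw
      rcases le_total 0 (-3 * a * w 0 / r6) with h1 | h1
      · right
        exact ⟨_, _, h1, by rw [decX_sq hs hw2]; exact hn, decX hs hw2⟩
      · left
        refine ⟨(b * w 1 - c * w 2) / r2, -(-3 * a * w 0 / r6), by linarith, ?_, ?_⟩
        · rw [neg_sq, decX_sq hs hw2]; exact hn
        · have := decX hs hw2
          rw [smul_neg, neg_smul, neg_neg]
          exact this

/-! ### The link at a vertex -/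

lemma mem_arc60 {e f : E3} {x y : ℝ} (hy : 0 ≤ y) (hx : 1 / 2 ≤ x) (hxy : x ^ 2 + y ^ 2 = 1) :
    x • e + y • f ∈ arc e f '' Icc 0 (Real.pi / 3) := by
  have hx1 : -1 ≤ x := by linarith
  have hx2 : x ≤ 1 := by nlinarith
  refine ⟨Real.arccos x, ⟨Real.arccos_nonneg x, ?_⟩, ?_⟩
  · have h1 : Real.arccos (1 / 2) = Real.pi / 3 := by
      rw [← Real.cos_pi_div_three]
      exact Real.arccos_cos (by positivity) (by linarith [Real.pi_pos])
    rw [← h1]
    exact Real.arccos_le_arccos hx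
  · have hc : Real.cos (Real.arccos x) = x := Real.cos_arccos hx1 hx2
    have hs : Real.sin (Real.arccos x) = y := by
      have h3 : Real.sin (Real.arccos x) ^ 2 = y ^ 2 := by
        have := Real.sin_sq_add_cos_sq (Real.arccos x)
        rw [hc] at this; linarith
      have h4 := Real.sin_nonneg_of_nonneg_of_le_pi (Real.arccos_nonneg x)
        (Real.arccos_le_pi x)
      exact (sq_eq_sq₀ h4 hy).mp h3
    unfold arc
    rw [hc, hs]

/-- At a vertex the total surface angle is at most `π`. -/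
lemma link_vertex {p : E3} (hp : p ∈ T) {a b c : ℝ} (hs : IsSign a b c)
    (h0 : p 0 = -a) (h1 : p 1 = -b) (h2 : p 2 = -c) :
    μH[1] (link T p) ≤ ENNReal.ofReal Real.pi := by
  obtain ⟨ha, hb, hc, hab, hbc, hac⟩ := sign_sq hs
  have q2 := r2_sq
  have q6 := r6_sq
  have p2 := r2_pos
  have p6 := r6_pos
  have n2 := r2_pos.ne'
  have n6 := r6_pos.ne'
  -- three faces at the vertex
  have act1 : a * p 0 + (-b) * p 1 + (-c) * p 2 = 1 := by rw [h0, h1, h2]; nlinarith
  have act2 : (-a) * p 0 + b * p 1 + (-c) * p 2 = 1 := by rw [h0, h1, h2]; nlinarith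
  have act3 : (-a) * p 0 + (-b) * p 1 + c * p 2 = 1 := by rw [h0, h1, h2]; nlinarith
  -- frames
  set e1 : E3 := !₂[a / r2, b / r2, 0] with he1
  set f1 : E3 := !₂[a / r6, -b / r6, 2 * c / r6] with hf1
  set e2 : E3 := !₂[0, b / r2, c / r2] with he2
  set f2 : E3 := !₂[2 * a / r6, b / r6, -c / r6] with hf2
  set e3 : E3 := !₂[a / r2, 0, c / r2] with he3
  set f3 : E3 := !₂[-a / r6, 2 * b / r6, c / r6] with hf3
  have ne1 : ‖e1‖ = 1 := by
    apply norm_one_of; rw [div_pow, div_pow, ha, hb, q2]; norm_num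
  have nf1 : ‖f1‖ = 1 := by
    apply norm_one_of; rw [div_pow, div_pow, div_pow, neg_sq, mul_pow, ha, hb, hc, q6]; norm_num
  have ne2 : ‖e2‖ = 1 := by
    apply norm_one_of; rw [div_pow, div_pow, hb, hc, q2]; norm_num
  have nf2 : ‖f2‖ = 1 := by
    apply norm_one_of; rw [div_pow, div_pow, div_pow, neg_sq, mul_pow, ha, hb, hc, q6]; norm_num
  have ne3 : ‖e3‖ = 1 := by
    apply norm_one_of; rw [div_pow, div_pow, ha, hc, q2]; norm_num
  have nf3 : ‖f3‖ = 1 := by
    apply norm_one_of; rw [div_pow, div_pow, div_pow, neg_sq, mul_pow, ha, hb, hc, q6]; norm_num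
  have i1 : inner ℝ e1 f1 = 0 := by
    rw [he1, hf1, inner_lit]; field_simp; linear_combination ha - hb
  have i2 : inner ℝ e2 f2 = 0 := by
    rw [he2, hf2, inner_lit]; field_simp; linear_combination hb - hc
  have i3 : inner ℝ e3 f3 = 0 := by
    rw [he3, hf3, inner_lit]; field_simp; linear_combination hc - ha
  have hsub : link T p ⊆ arc e1 f1 '' Icc 0 (Real.pi / 3) ∪ arc e2 f2 '' Icc 0 (Real.pi / 3)
      ∪ arc e3 f3 '' Icc 0 (Real.pi / 3) := by
    intro w hw
    have hn := link_norm hw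
    have l1 := link_le hw (sign_neg12 hs) act1
    have l2 := link_le hw (sign_neg02 hs) act2
    have l3 := link_le hw (sign_neg01 hs) act3
    obtain ⟨a', b', c', hs2, hact2, hw2⟩ := link_eq hp hw
    have hcase : (a' = a ∧ b' = -b ∧ c' = -c) ∨ (a' = -a ∧ b' = b ∧ c' = -c) ∨
        (a' = -a ∧ b' = -b ∧ c' = c) := by
      rw [h0, h1, h2] at hact2
      obtain ⟨ha | ha, hb | hb, hc⟩ := hs <;> obtain ⟨ha' | ha', hb' | hb', hc'⟩ := hs2 <;>
        subst ha <;> subst hb <;> subst hc <;> subst ha' <;> subst hb' <;> subst hc' <;>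
        (first | (exfalso; norm_num at hact2; done) | norm_num)
    have e5 : w 0 ^ 2 + w 1 ^ 2 + w 2 ^ 2 = (a * w 0) ^ 2 + (b * w 1) ^ 2 + (c * w 2) ^ 2 := by
      rw [mul_pow, mul_pow, mul_pow, ha, hb, hc]; ring
    rw [e5] at hn
    rcases hcase with ⟨h3, h4, h5⟩ | ⟨h3, h4, h5⟩ | ⟨h3, h4, h5⟩
    · left; left
      rw [h3, h4, h5] at hw2
      have hb1 : 0 ≤ b * w 1 := by linarith
      have hc1 : 0 ≤ c * w 2 := by linarith
      have hw' : a * w 0 = b * w 1 + c * w 2 := by linarith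
      have hdec : w = ((a * w 0 + b * w 1) / r2) • e1 + ((3 * (c * w 2)) / r6) • f1 := by
        rw [he1, hf1]
        ext j
        fin_cases j
        · simp
          field_simp
          rw [q6, q2]
          linear_combination (-12 * w 0) * ha + 6 * a * hw'
        · simp
          field_simp
          rw [q6, q2]
          linear_combination (-12 * w 1) * hb - 6 * b * hw'
        · simp
          field_simp
          rw [q6]
          linear_combination (-6 * w 2) * hc
      rw [hdec]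
      rw [hw'] at hn
      have hsq : ((a * w 0 + b * w 1) / r2) ^ 2 + ((3 * (c * w 2)) / r6) ^ 2 = 1 := by
        rw [div_pow, div_pow, q2, q6, hw']
        linarith
      apply mem_arc60
      · positivity
      · have hx0 : 0 ≤ (a * w 0 + b * w 1) / r2 := by
          apply div_nonneg _ p2.le; linarith
        have hy : ((3 * (c * w 2)) / r6) ^ 2 ≤ 3 * ((a * w 0 + b * w 1) / r2) ^ 2 := by
          rw [div_pow, div_pow, q2, q6, hw']
          nlinarith [mul_nonneg hb1 hc1]
        nlinarith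
      · exact hsq
    · left; right
      rw [h3, h4, h5] at hw2
      have hb1 : 0 ≤ a * w 0 := by linarith
      have hc1 : 0 ≤ c * w 2 := by linarith
      have hw' : b * w 1 = a * w 0 + c * w 2 := by linarith
      have hdec : w = ((b * w 1 + c * w 2) / r2) • e2 + ((3 * (a * w 0)) / r6) • f2 := by
        rw [he2, hf2]
        ext j
        fin_cases j
        · simp
          field_simp
          rw [q6]
          linear_combination (-6 * w 0) * ha
        · simp
          field_simp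
          rw [q6, q2]
          linear_combination (-12 * w 1) * hb + 6 * b * hw'
        · simp
          field_simp
          rw [q6, q2]
          linear_combination (-12 * w 2) * hc - 6 * c * hw'
      rw [hdec]
      rw [hw'] at hn
      have hsq : ((b * w 1 + c * w 2) / r2) ^ 2 + ((3 * (a * w 0)) / r6) ^ 2 = 1 := by
        rw [div_pow, div_pow, q2, q6, hw']
        linarith
      apply mem_arc60
      · positivity
      · have hx0 : 0 ≤ (b * w 1 + c * w 2) / r2 := by
          apply div_nonneg _ p2.le; linarith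
        have hy : ((3 * (a * w 0)) / r6) ^ 2 ≤ 3 * ((b * w 1 + c * w 2) / r2) ^ 2 := by
          rw [div_pow, div_pow, q2, q6, hw']
          nlinarith [mul_nonneg hb1 hc1]
        nlinarith
      · exact hsq
    · right
      rw [h3, h4, h5] at hw2
      have hb1 : 0 ≤ a * w 0 := by linarith
      have hc1 : 0 ≤ b * w 1 := by linarith
      have hw' : c * w 2 = a * w 0 + b * w 1 := by linarith
      have hdec : w = ((a * w 0 + c * w 2) / r2) • e3 + ((3 * (b * w 1)) / r6) • f3 := by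
        rw [he3, hf3]
        ext j
        fin_cases j
        · simp
          field_simp
          rw [q6, q2]
          linear_combination (-12 * w 0) * ha - 6 * a * hw'
        · simp
          field_simp
          rw [q6]
          linear_combination (-6 * w 1) * hb
        · simp
          field_simp
          rw [q6, q2]
          linear_combination (-12 * w 2) * hc + 6 * c * hw'
      rw [hdec]
      rw [hw'] at hn
      have hsq : ((a * w 0 + c * w 2) / r2) ^ 2 + ((3 * (b * w 1)) / r6) ^ 2 = 1 := by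
        rw [div_pow, div_pow, q2, q6, hw']
        linarith
      apply mem_arc60
      · positivity
      · have hx0 : 0 ≤ (a * w 0 + c * w 2) / r2 := by
          apply div_nonneg _ p2.le; linarith
        have hy : ((3 * (b * w 1)) / r6) ^ 2 ≤ 3 * ((a * w 0 + c * w 2) / r2) ^ 2 := by
          rw [div_pow, div_pow, q2, q6, hw']
          nlinarith [mul_nonneg hb1 hc1]
        nlinarith
      · exact hsq
  calc μH[1] (link T p) ≤ μH[1] (arc e1 f1 '' Icc 0 (Real.pi / 3) ∪
        arc e2 f2 '' Icc 0 (Real.pi / 3) ∪ arc e3 f3 '' Icc 0 (Real.pi / 3)) := measure_mono hsub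
    _ ≤ μH[1] (arc e1 f1 '' Icc 0 (Real.pi / 3) ∪
        arc e2 f2 '' Icc 0 (Real.pi / 3)) + μH[1] (arc e3 f3 '' Icc 0 (Real.pi / 3)) :=
        measure_union_le _ _
    _ ≤ (μH[1] (arc e1 f1 '' Icc 0 (Real.pi / 3)) +
        μH[1] (arc e2 f2 '' Icc 0 (Real.pi / 3))) + μH[1] (arc e3 f3 '' Icc 0 (Real.pi / 3)) := by
        gcongr; exact measure_union_le _ _
    _ ≤ (ENNReal.ofReal (Real.pi / 3 - 0) + ENNReal.ofReal (Real.pi / 3 - 0))
        + ENNReal.ofReal (Real.pi / 3 - 0) := by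
        gcongr
        · exact arc_measure ne1 nf1 i1 _ _
        · exact arc_measure ne2 nf2 i2 _ _
        · exact arc_measure ne3 nf3 i3 _ _
    _ = ENNReal.ofReal Real.pi := by
        have := Real.pi_pos
        rw [← ENNReal.ofReal_add (by linarith) (by linarith),
          ← ENNReal.ofReal_add (by linarith) (by linarith)]
        congr 1; ring

end Pool.Agent.H44.Quasi
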