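import Mathlib
import Pool.Agent.H44.QuasiLink

set_option autoImplicit false
open MeasureTheory Topology Set

namespace Pool.Agent.H44.Quasi

/-- The folded straight line of direction `(-(m+1), 1, m)` on the tetrahedron. -/
noncomputable def Phi (m t : ℝ) : E3 := !₂[D (-(m + 1) * t), D t, D (m * t)]

@[simp] lemma Phi_0 (m t : ℝ) : (Phi m t) 0 = D (-(m + 1) * t) := rfl
@[simp] lemma Phi_1 (m t : ℝ) : (Phi m t) 1 = D t := rfl
@[simp] lemma Phi_2 (m t : ℝ) : (Phi m t) 2 = D (m * t) := rfl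

lemma Phi_mem (m t : ℝ) : Phi m t ∈ T := by
  rw [mem_T]
  intro a b c hs
  exact wave_le (by ring) hs

lemma Phi_sign (m t : ℝ) : ∃ a b c, IsSign a b c ∧
    a * (Phi m t) 0 + b * (Phi m t) 1 + c * (Phi m t) 2 = 1 :=
  wave_eq (by ring)

lemma Phi_frontier (m t : ℝ) : Phi m t ∈ frontier T := by
  obtain ⟨a, b, c, hs, h⟩ := Phi_sign m t
  exact mem_frontier_T (Phi_mem m t) hs h

lemma Phi_neg (m t : ℝ) : Phi m (-t) = Phi m t := by
  unfold Phi
  rw [mul_neg, D_neg, D_neg, mul_neg, D_neg]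

lemma Phi_period (j : ℕ) (t : ℝ) (n : ℤ) : Phi (2 * j) (t + 2 * n) = Phi (2 * j) t := by
  unfold Phi
  have h1 : -(2 * (j : ℝ) + 1) * (t + 2 * n) = -(2 * (j : ℝ) + 1) * t
      + 2 * ((-(2 * j + 1) * n : ℤ) : ℝ) := by push_cast; ring
  have h2 : 2 * (j : ℝ) * (t + 2 * n) = 2 * (j : ℝ) * t + 2 * ((2 * j * n : ℤ) : ℝ) := by
    push_cast; ring
  rw [h1, h2, D_add_two, D_add_two, D_add_two]

/-- near an integer parameter -/
lemma Phi_int (j : ℕ) (n : ℤ) (s : ℝ) (hs : |s| * (2 * j + 1) ≤ 1) :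
    Phi (2 * j) (n + s) = !₂[D n, D n, -1] +
      |s| • (!₂[-2 * D n * (2 * j + 1), -2 * D n, 4 * j] : E3) := by
  have hj : (0 : ℝ) ≤ j := Nat.cast_nonneg j
  have hs0 := abs_nonneg s
  have hs1 : |s| ≤ 1 := by nlinarith
  obtain ⟨-, hk⟩ := D_kink n
  have h0 : D (-(2 * (j : ℝ) + 1) * (n + s)) = D n - 2 * D n * ((2 * j + 1) * |s|) := by
    have e1 : -(2 * (j : ℝ) + 1) * (n + s) = -((n + (2 * j + 1) * s) + 2 * ((j * n : ℤ) : ℝ)) := by
      push_cast; ring
    rw [e1, D_neg, D_add_two, hk]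
    · rw [abs_mul, abs_of_nonneg (by linarith : (0 : ℝ) ≤ 2 * j + 1)]
    · rw [abs_mul, abs_of_nonneg (by linarith : (0 : ℝ) ≤ 2 * j + 1)]; linarith
  have h2 : D (2 * (j : ℝ) * (n + s)) = -1 + 4 * j * |s| := by
    have e1 : 2 * (j : ℝ) * (n + s) = 2 * ((j * n : ℤ) : ℝ) + 2 * j * s := by
      push_cast; ring
    have e2 : |2 * (j : ℝ) * s| = 2 * j * |s| := by
      rw [abs_mul, abs_of_nonneg (by linarith : (0 : ℝ) ≤ 2 * j)]
    rw [D_eval e1 (by rw [e2]; nlinarith), e2]
    ring
  have h1 : D ((n : ℝ) + s) = D n - 2 * D n * |s| := hk s hs1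
  unfold Phi
  rw [h0, h1, h2]
  ext i
  fin_cases i
  · simp; ring
  · simp; ring
  · simp; ring

/-- The midpoint trick: a straight segment in the boundary lies in a face plane. -/
lemma mid {p u : E3} {ε : ℝ} (hε : 0 < ε) (h : ∀ s ∈ Icc 0 ε, p + s • u ∈ T)
    (h2 : ∃ a b c, IsSign a b c ∧ a * (p + (ε / 2) • u) 0 + b * (p + (ε / 2) • u) 1
      + c * (p + (ε / 2) • u) 2 = 1) :
    ∃ a b c, IsSign a b c ∧ a * p 0 + b * p 1 + c * p 2 = 1 ∧
      a * u 0 + b * u 1 + c * u 2 = 0 := by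
  obtain ⟨a, b, c, hs, h3⟩ := h2
  have h4 := h 0 ⟨le_refl _, hε.le⟩
  have h5 := h ε ⟨hε.le, le_refl _⟩
  rw [mem_T] at h4 h5
  have h6 := h4 a b c hs
  have h7 := h5 a b c hs
  simp only [PiLp.add_apply, PiLp.smul_apply, smul_eq_mul, zero_mul, add_zero] at h3 h6 h7
  have h8 : a * p 0 + b * p 1 + c * p 2 = 1 := by nlinarith
  refine ⟨a, b, c, hs, h8, ?_⟩
  have h9 : (ε / 2) * (a * u 0 + b * u 1 + c * u 2) = 0 := by linarith
  rcases mul_eq_zero.mp h9 with h10 | h10
  · linarith
  · exact h10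

lemma aux0 {a b c κ y z : ℝ} (hs : IsSign a b c) (hκ : κ = 1 ∨ κ = -1) (hy : |y| < 1)
    (hz : |z| < 1) (h : a * κ + b * y + c * z = 1) : a * κ = 1 := by
  have hy' := abs_lt.mp hy
  have hz' := abs_lt.mp hz
  obtain ⟨ha | ha, hb | hb, hc⟩ := hs <;> subst ha <;> subst hb <;> subst hc <;>
    rcases hκ with h3 | h3 <;> subst h3 <;> norm_num at h ⊢ <;> linarith

lemma aux2 {a b c κ y z : ℝ} (hs : IsSign a b c) (hκ : κ = 1 ∨ κ = -1) (hy : |y| < 1)
    (hz : |z| < 1) (h : a * y + b * z + c * κ = 1) : c * κ = 1 := by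
  have hy' := abs_lt.mp hy
  have hz' := abs_lt.mp hz
  obtain ⟨ha | ha, hb | hb, hc⟩ := hs <;> subst ha <;> subst hb <;> subst hc <;>
    rcases hκ with h3 | h3 <;> subst h3 <;> norm_num at h ⊢ <;> linarith

/-- Local structure at parameters which are not integers. -/
lemma Phi_local {m t : ℝ} (hm : 0 < m) (ht : ∀ n : ℤ, t ≠ n) :
    ∃ u v : E3, u ≠ 0 ∧ v ≠ 0 ∧ (∃ ε : ℝ, 0 < ε ∧ ∀ s ∈ Icc 0 ε,
      Phi m (t + s) = Phi m t + s • u ∧ Phi m (t - s) = Phi m t + s • v) ∧
      SideAnglesLE T (Phi m t) u v := by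
  obtain ⟨hp1, σ₁, hσ₁, η₁, hη₁, h1⟩ := D_smooth ht
  have hm1 : 0 < m + 1 := by linarith
  by_cases h0 : ∃ n : ℤ, -(m + 1) * t = n
  · -- kink in coordinate 0
    obtain ⟨n, hn⟩ := h0
    have h2 : ∀ n' : ℤ, m * t ≠ n' := by
      intro n' hn'
      apply ht (-n - n')
      push_cast
      rw [← hn, ← hn']; ring
    obtain ⟨hp2, σ₂, hσ₂, η₂, hη₂, h2'⟩ := D_smooth h2
    obtain ⟨hκ, hk⟩ := D_kink n
    set κ := D n with hκdef
    have hp0 : D (-(m + 1) * t) = κ := by rw [hn]
    set ε := min η₁ (min (1 / (m + 1)) (η₂ / (m + 1))) with hε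
    have hεpos : 0 < ε := by
      apply lt_min hη₁ (lt_min _ _) <;> positivity
    set u : E3 := !₂[-2 * κ * (m + 1), 2 * σ₁, 2 * σ₂ * m] with hu
    set v : E3 := !₂[-2 * κ * (m + 1), -(2 * σ₁), -(2 * σ₂ * m)] with hv
    have hune : u ≠ 0 := by
      intro h
      have : u 1 = 0 := by rw [h]; rfl
      simp [hu] at this
      rcases hσ₁ with h3 | h3 <;> rw [h3] at this <;> norm_num at this
    have hvne : v ≠ 0 := by
      intro h
      have : v 1 = 0 := by rw [h]; rfl
      simp [hv] at this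
      rcases hσ₁ with h3 | h3 <;> rw [h3] at this <;> norm_num at this
    have hloc : ∀ s : ℝ, |s| ≤ ε → Phi m (t + s) = Phi m t +
        (!₂[-2 * κ * (m + 1) * |s|, 2 * σ₁ * s, 2 * σ₂ * m * s] : E3) := by
      intro s hs
      have b1 : |s| ≤ η₁ := hs.trans (min_le_left _ _)
      have b2 : |s| ≤ 1 / (m + 1) := hs.trans ((min_le_right _ _).trans (min_le_left _ _))
      have b3 : |s| ≤ η₂ / (m + 1) := hs.trans ((min_le_right _ _).trans (min_le_right _ _))
      rw [le_div_iff₀ hm1] at b2 b3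
      have e0 : D (-(m + 1) * (t + s)) = D (-(m + 1) * t) + (-2 * κ * (m + 1) * |s|) := by
        have e : -(m + 1) * (t + s) = (n : ℝ) + (-(m + 1) * s) := by rw [← hn]; ring
        rw [e, hk, hp0, abs_mul, abs_neg, abs_of_pos hm1]
        · ring
        · rw [abs_mul, abs_neg, abs_of_pos hm1]; linarith
      have e1 := h1 s b1
      have e2 : D (m * (t + s)) = D (m * t) + 2 * σ₂ * m * s := by
        rw [mul_add, h2' (m * s)]
        · ring
        · rw [abs_mul, abs_of_pos hm]
          nlinarith [abs_nonneg s]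
      unfold Phi
      rw [e0, e1, e2]
      ext i
      fin_cases i <;> simp
    have hlocp : ∀ s ∈ Icc 0 ε, Phi m (t + s) = Phi m t + s • u := by
      intro s hs
      rw [hloc s (by rw [abs_of_nonneg hs.1]; exact hs.2), abs_of_nonneg hs.1]
      congr 1
      ext i
      fin_cases i <;> simp [hu] <;> ring
    have hlocm : ∀ s ∈ Icc 0 ε, Phi m (t - s) = Phi m t + s • v := by
      intro s hs
      rw [sub_eq_add_neg, hloc (-s) (by rw [abs_neg, abs_of_nonneg hs.1]; exact hs.2), abs_neg,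
        abs_of_nonneg hs.1]
      congr 1
      ext i
      fin_cases i <;> simp [hv] <;> ring
    refine ⟨u, v, hune, hvne, ⟨ε, hεpos, fun s hs => ⟨hlocp s hs, hlocm s hs⟩⟩, ?_⟩
    obtain ⟨a, b, c, hs, hact, hperp⟩ := mid (p := Phi m t) (u := u) hεpos
      (fun s hs => by rw [← hlocp s hs]; exact Phi_mem m _)
      (by
        rw [← hlocp (ε / 2) ⟨by linarith, by linarith⟩]
        exact Phi_sign m _)
    have hp1' := abs_lt.mp hp1
    have hp2' := abs_lt.mp hp2
    have ha0 : a * (Phi m t) 0 = 1 := by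
      rw [Phi_0, hp0]
      apply aux0 hs hκ hp1 hp2
      have := hact
      rw [Phi_0, Phi_1, Phi_2, hp0] at this
      exact this
    apply side_X (Phi_mem m t) hs hact ha0 (by rw [Phi_1]; exact hp1) hperp _ hune
    · simp [hu, hv]
    · simp [hu, hv]
    · simp [hu, hv]
    · have : a * u 0 = -2 * (m + 1) * (a * κ) := by simp [hu]; ring
      rw [Phi_0, hp0] at ha0
      rw [this, ha0]; linarith
  · push Not at h0
    obtain ⟨hp0, σ₀, hσ₀, η₀, hη₀, h0'⟩ := D_smooth h0
    by_cases h2 : ∃ n : ℤ, m * t = n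
    · -- kink in coordinate 2
      obtain ⟨n, hn⟩ := h2
      obtain ⟨hκ, hk⟩ := D_kink n
      set κ := D n with hκdef
      have hp2 : D (m * t) = κ := by rw [hn]
      set ε := min η₁ (min (1 / (m + 1)) (η₀ / (m + 1))) with hε
      have hεpos : 0 < ε := by
        apply lt_min hη₁ (lt_min _ _) <;> positivity
      set u : E3 := !₂[-(2 * σ₀ * (m + 1)), 2 * σ₁, -2 * κ * m] with hu
      set v : E3 := !₂[2 * σ₀ * (m + 1), -(2 * σ₁), -2 * κ * m] with hv
      have hune : u ≠ 0 := by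
        intro h
        have : u 1 = 0 := by rw [h]; rfl
        simp [hu] at this
        rcases hσ₁ with h3 | h3 <;> rw [h3] at this <;> norm_num at this
      have hvne : v ≠ 0 := by
        intro h
        have : v 1 = 0 := by rw [h]; rfl
        simp [hv] at this
        rcases hσ₁ with h3 | h3 <;> rw [h3] at this <;> norm_num at this
      have hloc : ∀ s : ℝ, |s| ≤ ε → Phi m (t + s) = Phi m t +
          (!₂[-(2 * σ₀ * (m + 1)) * s, 2 * σ₁ * s, -2 * κ * m * |s|] : E3) := by
        intro s hs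
        have b1 : |s| ≤ η₁ := hs.trans (min_le_left _ _)
        have b2 : |s| ≤ 1 / (m + 1) := hs.trans ((min_le_right _ _).trans (min_le_left _ _))
        have b3 : |s| ≤ η₀ / (m + 1) := hs.trans ((min_le_right _ _).trans (min_le_right _ _))
        rw [le_div_iff₀ hm1] at b2 b3
        have e0 : D (-(m + 1) * (t + s)) = D (-(m + 1) * t) + (-(2 * σ₀ * (m + 1)) * s) := by
          rw [mul_add, h0' (-(m + 1) * s)]
          · ring
          · rw [abs_mul, abs_neg, abs_of_pos hm1]; linarith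
        have e1 := h1 s b1
        have e2 : D (m * (t + s)) = D (m * t) + (-2 * κ * m * |s|) := by
          have e : m * (t + s) = (n : ℝ) + m * s := by rw [← hn]; ring
          rw [e, hk, hp2, abs_mul, abs_of_pos hm]
          · ring
          · rw [abs_mul, abs_of_pos hm]
            nlinarith [abs_nonneg s]
        unfold Phi
        rw [e0, e1, e2]
        ext i
        fin_cases i <;> simp
      have hlocp : ∀ s ∈ Icc 0 ε, Phi m (t + s) = Phi m t + s • u := by
        intro s hs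
        rw [hloc s (by rw [abs_of_nonneg hs.1]; exact hs.2), abs_of_nonneg hs.1]
        congr 1
        ext i
        fin_cases i <;> simp [hu] <;> ring
      have hlocm : ∀ s ∈ Icc 0 ε, Phi m (t - s) = Phi m t + s • v := by
        intro s hs
        rw [sub_eq_add_neg, hloc (-s) (by rw [abs_neg, abs_of_nonneg hs.1]; exact hs.2), abs_neg,
          abs_of_nonneg hs.1]
        congr 1
        ext i
        fin_cases i <;> simp [hv] <;> ring
      refine ⟨u, v, hune, hvne, ⟨ε, hεpos, fun s hs => ⟨hlocp s hs, hlocm s hs⟩⟩, ?_⟩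
      obtain ⟨a, b, c, hs, hact, hperp⟩ := mid (p := Phi m t) (u := u) hεpos
        (fun s hs => by rw [← hlocp s hs]; exact Phi_mem m _)
        (by
          rw [← hlocp (ε / 2) ⟨by linarith, by linarith⟩]
          exact Phi_sign m _)
      have hp1' := abs_lt.mp hp1
      have hp0' := abs_lt.mp hp0
      have hc0 : c * (Phi m t) 2 = 1 := by
        rw [Phi_2, hp2]
        apply aux2 hs hκ hp0 hp1
        have := hact
        rw [Phi_0, Phi_1, Phi_2, hp2] at this
        exact this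
      apply side_Z (Phi_mem m t) hs hact hc0 (by rw [Phi_1]; exact hp1) hperp _ hune
      · simp [hu, hv]
      · simp [hu, hv]
      · simp [hu, hv]
      · have : c * u 2 = -2 * m * (c * κ) := by simp [hu]; ring
        rw [Phi_2, hp2] at hc0
        rw [this, hc0]; linarith
    · -- inside a face
      push Not at h2
      obtain ⟨hp2, σ₂, hσ₂, η₂, hη₂, h2'⟩ := D_smooth h2
      set ε := min η₁ (min (η₀ / (m + 1)) (η₂ / (m + 1))) with hε
      have hεpos : 0 < ε := by
        apply lt_min hη₁ (lt_min _ _) <;> positivity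
      set u : E3 := !₂[-(2 * σ₀ * (m + 1)), 2 * σ₁, 2 * σ₂ * m] with hu
      have hune : u ≠ 0 := by
        intro h
        have : u 1 = 0 := by rw [h]; rfl
        simp [hu] at this
        rcases hσ₁ with h3 | h3 <;> rw [h3] at this <;> norm_num at this
      have hloc : ∀ s : ℝ, |s| ≤ ε → Phi m (t + s) = Phi m t + s • u := by
        intro s hs
        have b1 : |s| ≤ η₁ := hs.trans (min_le_left _ _)
        have b2 : |s| ≤ η₀ / (m + 1) := hs.trans ((min_le_right _ _).trans (min_le_left _ _))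
        have b3 : |s| ≤ η₂ / (m + 1) := hs.trans ((min_le_right _ _).trans (min_le_right _ _))
        rw [le_div_iff₀ hm1] at b2 b3
        have e0 : D (-(m + 1) * (t + s)) = D (-(m + 1) * t) + (-(2 * σ₀ * (m + 1)) * s) := by
          rw [mul_add, h0' (-(m + 1) * s)]
          · ring
          · rw [abs_mul, abs_neg, abs_of_pos hm1]; linarith
        have e1 := h1 s b1
        have e2 : D (m * (t + s)) = D (m * t) + 2 * σ₂ * m * s := by
          rw [mul_add, h2' (m * s)]
          · ring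
          · rw [abs_mul, abs_of_pos hm]
            nlinarith [abs_nonneg s]
        unfold Phi
        rw [e0, e1, e2]
        ext i
        fin_cases i <;> simp [hu] <;> ring
      have hlocp : ∀ s ∈ Icc 0 ε, Phi m (t + s) = Phi m t + s • u := by
        intro s hs
        exact hloc s (by rw [abs_of_nonneg hs.1]; exact hs.2)
      have hlocm : ∀ s ∈ Icc 0 ε, Phi m (t - s) = Phi m t + s • (-u) := by
        intro s hs
        rw [sub_eq_add_neg, hloc (-s) (by rw [abs_neg, abs_of_nonneg hs.1]; exact hs.2)]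
        rw [neg_smul, smul_neg]
      refine ⟨u, -u, hune, neg_ne_zero.mpr hune, ⟨ε, hεpos, fun s hs => ⟨hlocp s hs, hlocm s hs⟩⟩,
        ?_⟩
      obtain ⟨a, b, c, hs, hact, hperp⟩ := mid (p := Phi m t) (u := u) hεpos
        (fun s hs => by rw [← hlocp s hs]; exact Phi_mem m _)
        (by
          rw [← hlocp (ε / 2) ⟨by linarith, by linarith⟩]
          exact Phi_sign m _)
      exact side_face (Phi_mem m t) hs hact (by rw [Phi_0]; exact hp0)
        (by rw [Phi_1]; exact hp1) (by rw [Phi_2]; exact hp2) hperp hune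

/-- At the vertices the side condition is automatic. -/
lemma side_vertex {n : ℤ} {p : E3} (hp : p = !₂[D n, D n, -1]) (u v : E3) :
    SideAnglesLE T p u v := by
  obtain ⟨hκ, -⟩ := D_kink n
  have hs : IsSign (-D n) (-D n) 1 := by
    rcases hκ with h | h <;> rw [h] <;> simp [IsSign]
  have hpT : p ∈ T := by
    rw [mem_T, hp]
    rintro a b c ⟨ha | ha, hb | hb, hc⟩ <;> subst ha <;> subst hb <;> subst hc <;>
      rcases hκ with h | h <;> simp [h] <;> norm_num
  intro w _
  refine le_trans (measure_mono ?_) (link_vertex hpT hs (by rw [hp]; simp) (by rw [hp]; simp)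
    (by rw [hp]; simp))
  exact (connectedComponentIn_subset _ _).trans sdiff_subset

end Pool.Agent.H44.Quasi
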