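import Mathlib
import Pool.Agent.H44.QuasiCurve

/-!
The regular tetrahedron carries infinitely many simple closed quasigeodesics through vertices.

The surface of the regular tetrahedron is the image of the plane `x + y + z = 0` under the
coordinatewise triangle wave, and the straight lines of direction `(-(m+1), 1, m)`, `m` even, through
the origin fold to geodesic arcs which join the same two vertices `A` and `B`.  The arcs belonging
to `m = 2 j` and `m = 2 (j + 1)` meet only at `A` and `B`, so their union `Gam j` is a simple closed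
curve; it is a quasigeodesic because the total angle at `A` and at `B` is only `π`.
-/

set_option autoImplicit false
open MeasureTheory Topology Set

namespace Pool.Agent.H44.Quasi

/-- The closed curve. -/
noncomputable def gam (j : ℕ) (t : ℝ) : E3 :=
  if Even ⌊t⌋ then Phi (2 * j) t else Phi (2 * (j + 1 : ℕ)) t

/-- The closed curve as a set. -/
noncomputable def Gam (j : ℕ) : Set E3 := Set.range (gam j)

lemma gam_cases (j : ℕ) (t : ℝ) : (Even ⌊t⌋ ∧ gam j t = Phi (2 * j) t) ∨
    (¬ Even ⌊t⌋ ∧ gam j t = Phi (2 * (j + 1 : ℕ)) t) := by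
  unfold gam
  by_cases h : Even ⌊t⌋
  · left; exact ⟨h, if_pos h⟩
  · right; exact ⟨h, if_neg h⟩

lemma gam_frontier (j : ℕ) (t : ℝ) : gam j t ∈ frontier T := by
  rcases gam_cases j t with ⟨_, h⟩ | ⟨_, h⟩ <;> rw [h] <;> exact Phi_frontier _ _

lemma gam_period (j : ℕ) (t : ℝ) (n : ℤ) : gam j (t + 2 * n) = gam j t := by
  have h1 : ⌊t + 2 * n⌋ = ⌊t⌋ + 2 * n := by
    have : t + 2 * n = t + ((2 * n : ℤ) : ℝ) := by push_cast; ring
    rw [this, Int.floor_add_intCast]
  have h2 : Even (⌊t⌋ + 2 * n) ↔ Even ⌊t⌋ := by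
    rw [Int.even_add]
    have : Even (2 * n) := even_two_mul n
    tauto
  unfold gam
  rw [h1, Phi_period, Phi_period]
  simp only [h2]

lemma gam_int (j : ℕ) (n : ℤ) : gam j n = !₂[D n, D n, -1] := by
  rcases gam_cases j n with ⟨_, h⟩ | ⟨_, h⟩ <;> rw [h]
  · have := Phi_int j n 0 (by simp)
    simpa using this
  · have := Phi_int (j + 1) n 0 (by simp)
    simpa using this

lemma gam_1 (j : ℕ) (t : ℝ) : (gam j t) 1 = D t := by
  rcases gam_cases j t with ⟨_, h⟩ | ⟨_, h⟩ <;> rw [h] <;> rfl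

/-- the two arcs meet only at the vertices -/
lemma arcs_disjoint {j : ℕ} {t : ℝ} (h : Phi (2 * j) t = Phi (2 * (j + 1 : ℕ)) t) :
    ∃ n : ℤ, t = n := by
  have h0 : D (-(2 * (j : ℝ) + 1) * t) = D (-(2 * ((j + 1 : ℕ) : ℝ) + 1) * t) := by
    have := congrArg (fun p : E3 => p 0) h
    simpa using this
  have h2 : D (2 * (j : ℝ) * t) = D (2 * ((j + 1 : ℕ) : ℝ) * t) := by
    have := congrArg (fun p : E3 => p 2) h
    simpa using this
  rcases D_eq_iff h0 with ⟨n, hn⟩ | ⟨n, hn⟩
  · refine ⟨n, ?_⟩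
    push_cast at hn
    linarith
  · rcases D_eq_iff h2 with ⟨n', hn'⟩ | ⟨n', hn'⟩
    · refine ⟨-n', ?_⟩
      push_cast at hn' ⊢
      linarith
    · -- (2j+2) t and (2j+1) t are integers
      refine ⟨-n - n', ?_⟩
      push_cast at hn hn' ⊢
      linarith

lemma gam_inj (j : ℕ) (s t : ℝ) : gam j s = gam j t ↔ ∃ n : ℤ, t = s + n * 2 := by
  constructor
  · intro h
    have h1 : D s = D t := by rw [← gam_1 j s, ← gam_1 j t, h]
    rcases D_eq_iff h1 with ⟨n, hn⟩ | ⟨n, hn⟩
    · exact ⟨-n, by push_cast; linarith⟩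
    · -- s = -t + 2 n
      have h2 : gam j (-t) = gam j t := by
        rw [← h, hn, gam_period]
      by_cases hint : ∃ m : ℤ, t = m
      · obtain ⟨m, hm⟩ := hint
        exact ⟨m - n, by push_cast; linarith⟩
      · exfalso
        apply hint
        have hfl : ⌊-t⌋ = -⌊t⌋ - 1 := by
          rw [Int.floor_eq_iff]
          have h3 := Int.floor_le t
          have h4 := Int.lt_floor_add_one t
          have h5 : (⌊t⌋ : ℝ) ≠ t := fun h => hint ⟨⌊t⌋, h.symm⟩
          have h6 : (⌊t⌋ : ℝ) < t := lt_of_le_of_ne h3 h5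
          push_cast
          constructor <;> linarith
        have hpar : Even ⌊-t⌋ ↔ ¬ Even ⌊t⌋ := by
          rw [hfl]
          constructor
          · rintro ⟨a, ha⟩ ⟨b, hb⟩; omega
          · intro h7
            rw [Int.not_even_iff_odd] at h7
            obtain ⟨b, hb⟩ := h7
            exact ⟨-b - 1, by omega⟩
        rcases gam_cases j t with ⟨he, ht⟩ | ⟨he, ht⟩ <;>
          rcases gam_cases j (-t) with ⟨he', ht'⟩ | ⟨he', ht'⟩
        · exact absurd he (hpar.mp he')
        · rw [ht, ht', Phi_neg] at h2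
          exact arcs_disjoint h2.symm
        · rw [ht, ht', Phi_neg] at h2
          exact arcs_disjoint h2
        · exact absurd (hpar.mpr he) he'
  · rintro ⟨n, rfl⟩
    rw [mul_comm, gam_period]

lemma gam_local {j : ℕ} (hj : 0 < j) (t : ℝ) : ∃ u v : E3, u ≠ 0 ∧ v ≠ 0 ∧
      (∃ ε : ℝ, 0 < ε ∧ ∀ s ∈ Set.Icc 0 ε, gam j (t + s) = gam j t + s • u ∧
        gam j (t - s) = gam j t + s • v) ∧ SideAnglesLE T (gam j t) u v := by
  have hjr : (0 : ℝ) < j := by exact_mod_cast hj
  by_cases hint : ∃ n : ℤ, t = n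
  · obtain ⟨n, rfl⟩ := hint
    obtain ⟨hκ, -⟩ := D_kink n
    have hne : ∀ i : ℕ, (!₂[-2 * D n * (2 * i + 1), -2 * D n, 4 * i] : E3) ≠ 0 := by
      intro i h
      have : (!₂[-2 * D n * (2 * i + 1), -2 * D n, 4 * i] : E3) 1 = 0 := by rw [h]; rfl
      simp at this
      rcases hκ with h3 | h3 <;> rw [h3] at this <;> norm_num at this
    -- the arcs on the two sides
    have hright : ∃ i : ℕ, i ≤ j + 1 ∧ ∀ s : ℝ, 0 ≤ s → s < 1 →
        gam j (n + s) = Phi (2 * i) (n + s) := by
      by_cases he : Even n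
      · refine ⟨j, by omega, fun s h1 h2 => ?_⟩
        have hfl : ⌊(n : ℝ) + s⌋ = n := by
          rw [Int.floor_eq_iff]; constructor <;> linarith
        unfold gam
        rw [hfl, if_pos he]
      · refine ⟨j + 1, le_refl _, fun s h1 h2 => ?_⟩
        have hfl : ⌊(n : ℝ) + s⌋ = n := by
          rw [Int.floor_eq_iff]; constructor <;> linarith
        unfold gam
        rw [hfl, if_neg he]
    have hleft : ∃ i : ℕ, i ≤ j + 1 ∧ ∀ s : ℝ, 0 < s → s < 1 →
        gam j (n - s) = Phi (2 * i) (n - s) := by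
      by_cases he : Even n
      · refine ⟨j + 1, le_refl _, fun s h1 h2 => ?_⟩
        have hfl : ⌊(n : ℝ) - s⌋ = n - 1 := by
          rw [Int.floor_eq_iff]; push_cast; constructor <;> linarith
        have hne' : ¬ Even (n - 1) := by
          rintro ⟨b, hb⟩
          obtain ⟨a, ha⟩ := he
          omega
        unfold gam
        rw [hfl, if_neg hne']
      · refine ⟨j, by omega, fun s h1 h2 => ?_⟩
        have hfl : ⌊(n : ℝ) - s⌋ = n - 1 := by
          rw [Int.floor_eq_iff]; push_cast; constructor <;> linarith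
        have hev : Even (n - 1) := by
          rw [Int.not_even_iff_odd] at he
          obtain ⟨b, hb⟩ := he
          exact ⟨b, by omega⟩
        unfold gam
        rw [hfl, if_pos hev]
    obtain ⟨i, hi, hR⟩ := hright
    obtain ⟨i', hi', hL⟩ := hleft
    refine ⟨_, _, hne i, hne i', ⟨1 / (2 * (j + 1 : ℕ) + 1), by positivity, ?_⟩,
      side_vertex (n := n) (gam_int j n) _ _⟩
    intro s hs
    have hs0 : 0 ≤ s := hs.1
    have hs1 : s * (2 * (j + 1 : ℕ) + 1) ≤ 1 := by
      have := hs.2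
      rwa [le_div_iff₀ (by positivity)] at this
    have hir : (i : ℝ) ≤ (j + 1 : ℕ) := by exact_mod_cast hi
    have hir' : (i' : ℝ) ≤ (j + 1 : ℕ) := by exact_mod_cast hi'
    have hsi : |s| * (2 * i + 1) ≤ 1 := by
      rw [abs_of_nonneg hs0]; nlinarith
    have hsi' : |(-s)| * (2 * i' + 1) ≤ 1 := by
      rw [abs_neg, abs_of_nonneg hs0]; nlinarith
    have hslt : s < 1 := by
      have : (0 : ℝ) ≤ (j : ℝ) := hjr.le
      push_cast at hs1
      by_contra hcon
      push Not at hcon
      nlinarith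
    constructor
    · rw [hR s hs0 hslt, gam_int, Phi_int i n s hsi, abs_of_nonneg hs0]
    · rcases eq_or_lt_of_le hs0 with h | h
      · rw [← h]; simp
      · rw [hL s h hslt, gam_int, sub_eq_add_neg, Phi_int i' n (-s) hsi', abs_neg,
          abs_of_nonneg hs0]
  · push Not at hint
    have h3 := Int.floor_le t
    have h4 := Int.lt_floor_add_one t
    have h5 : (⌊t⌋ : ℝ) ≠ t := fun h => hint ⌊t⌋ h.symm
    have h6 : (⌊t⌋ : ℝ) < t := lt_of_le_of_ne h3 h5
    -- near `t` the curve is one of the two arcs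
    have hloc : ∃ m : ℝ, 0 < m ∧ ∀ s : ℝ, ⌊s⌋ = ⌊t⌋ → gam j s = Phi m s := by
      by_cases he : Even ⌊t⌋
      · refine ⟨2 * j, by positivity, fun s hs => ?_⟩
        unfold gam
        rw [hs, if_pos he]
      · refine ⟨2 * (j + 1 : ℕ), by positivity, fun s hs => ?_⟩
        unfold gam
        rw [hs, if_neg he]
    obtain ⟨m, hm, hloc⟩ := hloc
    obtain ⟨u, v, hu, hv, ⟨ε, hε, hs⟩, hside⟩ := Phi_local hm hint
    have ht := hloc t rfl
    refine ⟨u, v, hu, hv, ⟨min ε (min ((t - ⌊t⌋) / 2) ((⌊t⌋ + 1 - t) / 2)), ?_, ?_⟩, ?_⟩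
    · apply lt_min hε (lt_min _ _) <;> linarith
    · intro s hs'
      have b1 : s ≤ ε := hs'.2.trans (min_le_left _ _)
      have b2 : s ≤ (t - ⌊t⌋) / 2 := hs'.2.trans ((min_le_right _ _).trans (min_le_left _ _))
      have b3 : s ≤ (⌊t⌋ + 1 - t) / 2 := hs'.2.trans ((min_le_right _ _).trans (min_le_right _ _))
      have b0 : 0 ≤ s := hs'.1
      have f1 : ⌊t + s⌋ = ⌊t⌋ := by
        rw [Int.floor_eq_iff]; constructor <;> linarith
      have f2 : ⌊t - s⌋ = ⌊t⌋ := by
        rw [Int.floor_eq_iff]; constructor <;> linarith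
      rw [hloc _ f1, hloc _ f2, ht]
      exact hs s ⟨b0, b1⟩
    · rw [ht]; exact hside

lemma Gam_quasi {j : ℕ} (hj : 0 < j) : IsSimpleClosedQuasigeodesic Tet (Gam j) := by
  rw [Tet_eq]
  refine ⟨gam j, 2, by norm_num, rfl, gam_frontier j, gam_inj j, gam_local hj⟩

/-- the four points `V i` are extreme -/
lemma V_extreme (i : Fin 4) : V i ∈ vertices Tet := by
  unfold vertices
  rw [Tet_eq, mem_extremePoints_iff_left]
  refine ⟨V_mem i, ?_⟩
  rintro x hx y hy ⟨α, β, hα, hβ, hαβ, hxy⟩
  rw [mem_T] at hx hy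
  have s0 : IsSign 1 1 1 := by simp [IsSign]
  have s1 : IsSign 1 (-1) (-1) := by simp [IsSign]
  have s2 : IsSign (-1) 1 (-1) := by simp [IsSign]
  have s3 : IsSign (-1) (-1) 1 := by simp [IsSign]
  have x0 := hx _ _ _ s0
  have x1 := hx _ _ _ s1
  have x2 := hx _ _ _ s2
  have x3 := hx _ _ _ s3
  have y0 := hy _ _ _ s0
  have y1 := hy _ _ _ s1
  have y2 := hy _ _ _ s2
  have y3 := hy _ _ _ s3
  have e0 : α * x 0 + β * y 0 = (V i) 0 := by rw [← hxy]; simp
  have e1 : α * x 1 + β * y 1 = (V i) 1 := by rw [← hxy]; simp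
  have e2 : α * x 2 + β * y 2 = (V i) 2 := by rw [← hxy]; simp
  -- an affine functional bounded by one and attaining one at the combination
  have key : ∀ f g : ℝ, f ≤ 1 → g ≤ 1 → α * f + β * g = 1 → f = 1 := by
    intro f g hf hg h
    by_contra hne
    have hlt : f < 1 := lt_of_le_of_ne hf hne
    nlinarith
  fin_cases i
  · simp [V] at e0 e1 e2 ⊢
    have k1 := key _ _ x1 y1 (by linear_combination e0 - e1 - e2)
    have k2 := key _ _ x2 y2 (by linear_combination e1 - e0 - e2)
    have k3 := key _ _ x3 y3 (by linear_combination e2 - e0 - e1)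
    ext k
    fin_cases k <;> simp <;> linarith
  · simp [V] at e0 e1 e2 ⊢
    have k0 := key _ _ x0 y0 (by linear_combination e0 + e1 + e2)
    have k2 := key _ _ x2 y2 (by linear_combination e1 - e0 - e2)
    have k3 := key _ _ x3 y3 (by linear_combination e2 - e0 - e1)
    ext k
    fin_cases k <;> simp <;> linarith
  · simp [V] at e0 e1 e2 ⊢
    have k0 := key _ _ x0 y0 (by linear_combination e0 + e1 + e2)
    have k1 := key _ _ x1 y1 (by linear_combination e0 - e1 - e2)
    have k3 := key _ _ x3 y3 (by linear_combination e2 - e0 - e1)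
    ext k
    fin_cases k <;> simp <;> linarith
  · simp [V] at e0 e1 e2 ⊢
    have k0 := key _ _ x0 y0 (by linear_combination e0 + e1 + e2)
    have k1 := key _ _ x1 y1 (by linear_combination e0 - e1 - e2)
    have k2 := key _ _ x2 y2 (by linear_combination e1 - e0 - e2)
    ext k
    fin_cases k <;> simp <;> linarith

lemma V_inj : Function.Injective V := by
  intro i j h
  have h0 := congrArg (fun p : E3 => p 0) h
  have h1 := congrArg (fun p : E3 => p 1) h
  have h2 := congrArg (fun p : E3 => p 2) h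
  fin_cases i <;> fin_cases j <;> simp [V] at h0 h1 h2 ⊢ <;>
    first
    | (exfalso; norm_num at h0; done)
    | (exfalso; norm_num at h1; done)
    | (exfalso; norm_num at h2; done)

lemma vertices_Tet : vertices Tet = Set.range V := by
  apply Set.Subset.antisymm
  · exact extremePoints_convexHull_subset
  · rintro _ ⟨i, rfl⟩
    exact V_extreme i

lemma vertices_card : (vertices Tet).ncard = 4 := by
  rw [vertices_Tet, ← Set.image_univ, Set.ncard_image_of_injective _ V_inj, Set.ncard_univ]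
  simp

lemma Gam_vertex (j : ℕ) : (Gam j ∩ vertices Tet).Nonempty := by
  refine ⟨gam j ((0 : ℤ) : ℝ), ⟨_, rfl⟩, ?_⟩
  rw [gam_int, vertices_Tet]
  refine ⟨0, ?_⟩
  have h0 : D ((0 : ℤ) : ℝ) = -1 := by
    rw [D_eval (m := 0) (s := 0) (by simp) (by simp)]; simp
  rw [h0]
  simp [V]

lemma Gam_inj_aux {j k : ℕ} (h : Gam j = Gam k) : j = k ∨ j = k + 1 := by
  set t : ℝ := 1 / (4 * (j + k + 2)) with ht
  have hpos : (0 : ℝ) < 4 * (j + k + 2) := by positivity
  have ht0 : 0 < t := by rw [ht]; positivity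
  have hjk : t * (4 * (j + k + 2)) = 1 := by rw [ht]; field_simp
  have hjn : (0 : ℝ) ≤ j := Nat.cast_nonneg j
  have hkn : (0 : ℝ) ≤ k := Nat.cast_nonneg k
  have htj : t * j ≤ 1 / 4 := by nlinarith
  have htk : t * k ≤ 1 / 4 := by nlinarith
  have ht8 : t ≤ 1 / 8 := by nlinarith
  have hfl : ⌊t⌋ = 0 := by
    rw [Int.floor_eq_iff]; push_cast; constructor <;> linarith
  have hg : gam j t = Phi (2 * j) t := by
    unfold gam
    rw [hfl]; simp
  have hmem : gam j t ∈ Gam k := by rw [← h]; exact ⟨t, rfl⟩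
  obtain ⟨s, hs⟩ := hmem
  have h1 : D s = D t := by rw [← gam_1 k s, ← gam_1 j t, hs]
  have h2 : gam k s = gam k t ∨ gam k s = gam k (-t) := by
    rcases D_eq_iff h1 with ⟨n, hn⟩ | ⟨n, hn⟩
    · left; rw [hn, gam_period]
    · right; rw [hn, gam_period]
  have hval : ∀ i : ℕ, t * i ≤ 1 / 2 → (Phi (2 * i) t) 2 = 4 * i * t - 1 := by
    intro i hi
    have hin : (0 : ℝ) ≤ i := Nat.cast_nonneg i
    rw [Phi_2, D_eval (m := 0) (s := 2 * i * t) (by simp)
      (by rw [abs_of_nonneg (by positivity)]; nlinarith), abs_of_nonneg (by positivity)]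
    ring
  have h3 : (Phi (2 * j) t) 2 = (Phi (2 * k) t) 2 ∨
      (Phi (2 * j) t) 2 = (Phi (2 * (k + 1 : ℕ)) t) 2 := by
    rw [← hg, ← hs]
    rcases h2 with h2 | h2
    · rw [h2]
      rcases gam_cases k t with ⟨_, h4⟩ | ⟨_, h4⟩
      · left; rw [h4]
      · right; rw [h4]
    · rw [h2]
      rcases gam_cases k (-t) with ⟨_, h4⟩ | ⟨_, h4⟩
      · left; rw [h4, Phi_neg]
      · right; rw [h4, Phi_neg]
  rw [hval j (by linarith)] at h3
  rcases h3 with h3 | h3
  · rw [hval k (by linarith)] at h3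
    left
    have : (j : ℝ) = k := by
      have h5 : (4 * t) * ((j : ℝ) - k) = 0 := by linarith
      rcases mul_eq_zero.mp h5 with h6 | h6 <;> linarith
    exact_mod_cast this
  · rw [hval (k + 1) (by push_cast; nlinarith)] at h3
    right
    have : (j : ℝ) = k + 1 := by
      push_cast at h3
      have h5 : (4 * t) * ((j : ℝ) - (k + 1)) = 0 := by linarith
      rcases mul_eq_zero.mp h5 with h6 | h6 <;> linarith
    exact_mod_cast this

lemma Gam_injective : Function.Injective Gam := by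
  intro j k h
  have h1 := Gam_inj_aux h
  have h2 := Gam_inj_aux h.symm
  omega


lemma vertexQuasigeodesics_infinite : (vertexQuasigeodesics Tet).Infinite := by
  apply Set.infinite_of_injective_forall_mem (f := fun j : ℕ => Gam (j + 1))
  · intro j k h
    have := Gam_injective h
    omega
  · intro j
    exact ⟨Gam_quasi (Nat.succ_pos j), Gam_vertex _⟩

end Pool.Agent.H44.Quasi
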